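import Pool.Agent.Run7.h530.TQ.Cyc
import Pool.Agent.Helper58K9.ET.Acc

/-!
# Finite quotients all of whose cyclic quotients are arrangement varieties
-/

set_option autoImplicit false
set_option linter.unusedSectionVars false

namespace Run7.h530.TQ

open Pool.Agent.H436R3.Fol Pool.Agent.H436R3.KT Pool.Agent.W497.Mld Pool.Agent.Helper58K9.ET
open Q47.QM Q47.TV Pool.Agent.Helper58K9.AR

/-- The pair `(X, B)` is at the closed point `x`, étale locally, a general arrangement variety of klt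
type and of dimension `d`, with an attractive fixed point and an invariant boundary with coefficients
in `Γ`. -/
def IsArrIn (d : ℕ) (Γ : Set ℝ) {K : Type} [Field K] [Algebra ℂ K] {X : AffVar K} {B : EffDiv X}
    (E : ∀ x : Pt X, LocEq B x) (x : Pt X) : Prop :=
  ∃ (c n : ℕ) (_ : 0 < c) (_ : c + n = d) (M : Type) (_ : Field M) (_ : Algebra ℂ M)
    (g : ArrGerm c n M) (_ : KltType g) (B' : EffDiv g.X) (_ : CoeffIn B' Γ) (u : Fin n → ℝ)
    (η : Fin g.F.q → ℝ) (E' : ∀ y : Pt g.X, LocEq B' y) (_ : ∀ y, IsEq g (E' y) u η),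
    Common E x E' g.P

/-- The quotient of the pair `(X, B)` by the cyclic group of automorphisms which is generated by `σ`
is, at the image of `x`, étale locally a general arrangement variety of klt type. -/
def CycArr (d : ℕ) (Γ : Set ℝ) {K : Type} [Field K] [Algebra ℂ K] {X : AffVar K} {B : EffDiv X}
    (E : ∀ x : Pt X, LocEq B x) (x : Pt X) (σ : K ≃ₐ[ℂ] K) : Prop :=
  ∃ (K1 : Type) (_ : Field K1) (_ : Algebra ℂ K1) (_ : Algebra K1 K) (_ : IsScalarTower ℂ K1 K)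
    (Z : AffVar K1) (BZ : EffDiv Z) (EZ : ∀ z : Pt Z, LocEq BZ z) (z : Pt Z),
    IsQuot EZ E (Subgroup.zpowers σ) ∧ LiesOver x z ∧ IsArrIn d Γ EZ z

/-- The pair `(W, B_W)` is at the closed point `w`, étale locally, the quotient `(Z, B_Z)` of a pair
`(X, B)` by a finite group `G` of automorphisms of `X`, such that, at a point `x` of `X` over the point
`z` of `Z`, all the quotients of `(X, B)` by the cyclic groups generated by the elements of `G` which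
fix `x` are étale locally general arrangement varieties of klt type. -/
def IsArrQuot (d : ℕ) (Γ : Set ℝ) {KW : Type} [Field KW] [Algebra ℂ KW] {W : AffVar KW}
    {BW : EffDiv W} (EW : ∀ w : Pt W, LocEq BW w) (w : Pt W) : Prop :=
  ∃ (K0 K : Type) (_ : Field K0) (_ : Algebra ℂ K0) (_ : Field K) (_ : Algebra ℂ K)
    (_ : Algebra K0 K) (_ : IsScalarTower ℂ K0 K) (Z : AffVar K0) (BZ : EffDiv Z)
    (EZ : ∀ z : Pt Z, LocEq BZ z) (X : AffVar K) (B : EffDiv X) (E : ∀ x : Pt X, LocEq B x)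
    (G : Subgroup (K ≃ₐ[ℂ] K)) (z : Pt Z) (x : Pt X),
    Finite G ∧ IsQuot EZ E G ∧ LiesOver x z ∧ (∀ σ ∈ G, FixesPt x σ → CycArr d Γ E x σ) ∧
    Common EW w EZ z

theorem zpowers_finite {A : Type} [Group A] {G : Subgroup A} [Finite G] {σ : A} (hσ : σ ∈ G) :
    Finite (Subgroup.zpowers σ) :=
  Finite.of_injective (Subgroup.inclusion (Subgroup.zpowers_le.2 hσ))
    (Subgroup.inclusion_injective _)

theorem arrQuot_lsc {d : ℕ} {Γ : Set ℝ} {KW : Type} [Field KW] [Algebra ℂ KW] {W : AffVar KW}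
    {BW : EffDiv W} {EW : ∀ w : Pt W, LocEq BW w} {w : Pt W} (h : IsArrQuot d Γ EW w) :
    ∃ f : W.R, w f ≠ 0 ∧ ∀ w' : Pt W, w' f ≠ 0 → mld (EW w) ≤ mld (EW w') := by
  obtain ⟨K0, K, _, _, _, _, _, _, Z, BZ, EZ, X, B, E, G, z, x, _, hq, hxz, hx, hc⟩ := h
  refine lsc_of_common up (down dens frac) dens (extd frac) appr chg opn hc
    (hq.lsc_of_nx hxz (nx_of_cyc x fun σ hσ hf => ?_))
  obtain ⟨K1, _, _, _, _, Z1, B1, E1, z1, hq1, hxz1, c, n, hc0, -, M, _, _, g, hk, B', -, u, η, E',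
    hE', hcom⟩ := hx σ hσ hf
  have := zpowers_finite hσ
  exact hq1.nx_cyc hxz1 (arr_lsc up (down dens frac) dens (extd frac) appr chg opn
    ⟨c, n, hc0, M, inferInstance, inferInstance, g, hk, B', u, η, E', hE', hcom⟩)

section

variable {K0 K : Type} [Field K0] [Algebra ℂ K0] [Field K] [Algebra ℂ K] [Algebra K0 K]
  [IsScalarTower ℂ K0 K] {Z : AffVar K0} {BZ : EffDiv Z} {EZ : ∀ z : Pt Z, LocEq BZ z}
  {X : AffVar K} {B : EffDiv X} {E : ∀ x : Pt X, LocEq B x} {G : Subgroup (K ≃ₐ[ℂ] K)}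

theorem Bd.cyc [Finite G] {x : Pt X} {m : ℝ} (hm0 : 0 ≤ m) (hm : Bd E G x m) {σ : K ≃ₐ[ℂ] K}
    (hσG : σ ∈ G) : Bd E (Subgroup.zpowers σ) x m := by
  intro v' b' hov' hb'
  refine (hm v' b' hov' hb').trans ?_
  have hb0 : 0 ≤ b' := by
    have h4 := hm0.trans (hm v' b' hov' hb')
    have h5 : (0 : ℝ) < Nat.card (G ⊓ Ig v' : Subgroup (K ≃ₐ[ℂ] K)) := by
      exact_mod_cast (exists_gen G v').1
    by_contra hneg
    push Not at hneg
    exact absurd h4 (not_le.2 (div_neg_of_neg_of_pos hneg h5))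
  have hle : (Subgroup.zpowers σ ⊓ Ig v' : Subgroup (K ≃ₐ[ℂ] K)) ≤ G ⊓ Ig v' :=
    inf_le_inf_right _ (Subgroup.zpowers_le.2 hσG)
  have hfin : Finite (G ⊓ Ig v' : Subgroup (K ≃ₐ[ℂ] K)) :=
    Set.Finite.subset (s := (G : Set (K ≃ₐ[ℂ] K))) (Set.toFinite _) fun x hx => hx.1
  have hfin' : Finite (Subgroup.zpowers σ ⊓ Ig v' : Subgroup (K ≃ₐ[ℂ] K)) :=
    Finite.of_injective (Subgroup.inclusion hle) (Subgroup.inclusion_injective _)
  have hpos : 0 < Nat.card (Subgroup.zpowers σ ⊓ Ig v' : Subgroup (K ≃ₐ[ℂ] K)) :=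
    Nat.card_pos
  refine div_le_div_of_nonneg_left hb0 (by exact_mod_cast hpos) ?_
  exact_mod_cast Nat.le_of_dvd Nat.card_pos (Subgroup.card_dvd_of_le hle)

/-- the minimal log discrepancy of the quotient is the one of a cyclic quotient -/
theorem IsQuot.mld_cyc (hq : IsQuot EZ E G) [Finite G] {z : Pt Z} {x : Pt X}
    (hxz : LiesOver x z) {m : ℝ} (hm0 : 0 ≤ m) (hm : Pool.Agent.W497.Mld.IsMld (EZ z) m) :
    ∃ σ ∈ G, FixesPt x σ ∧ ∀ {K1 : Type} [Field K1] [Algebra ℂ K1] [Algebra K1 K]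
      [IsScalarTower ℂ K1 K] {Z1 : AffVar K1} {B1 : EffDiv Z1} {E1 : ∀ z : Pt Z1, LocEq B1 z}
      (_ : IsQuot E1 E (Subgroup.zpowers σ)) {z1 : Pt Z1} (_ : LiesOver x z1),
      Pool.Agent.W497.Mld.IsMld (E1 z1) m := by
  obtain ⟨⟨v, hv, hvm⟩, hlow⟩ := hm
  obtain ⟨x1, w1, e, hx1, hw1, he, h1⟩ := hq.up hv
  obtain ⟨τ, hτ, hxx⟩ := hq.trans hxz hx1
  have hw2 : IsOverGerm x (tw w1 τ) := IsQuot.over_tw' (hq.aut τ hτ) hxx hw1
  have h2 : ∀ f : K0, f ≠ 0 → (tw w1 τ).ord (algebraMap K0 K f) = e * v.ord f := by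
    intro f hf
    change w1.ord (τ (algebraMap K0 K f)) = _
    rw [hq.inv τ hτ, h1 f hf]
  have hb := (hq.disc hxz hw2 hv he h2 m).1 hvm
  obtain ⟨hr, σ, hσG, hI, hσr, hch⟩ := exists_gen G (tw w1 τ)
  refine ⟨σ, hσG, fixesPt_of_InI hw2 hI, ?_⟩
  intro K1 _ _ _ _ Z1 B1 E1 hq1 z1 hxz1
  have hfin := zpowers_finite hσG
  have hBd : Bd E G x m := (hq.bound_iff hxz m).1 fun v a hv ha => hlow ⟨v, hv, ha⟩
  constructor
  · obtain ⟨v', e', hv', he', h'⟩ := hq1.down hxz1 hw2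
    refine ⟨v', hv', (hq1.disc hxz1 hw2 hv' he' h' m).2 ?_⟩
    rwa [hq1.ram h', card_zpowers hσG hI hch, ← hq.ram h2]
  · rintro a ⟨v', hv', ha⟩
    exact (hq1.bound_iff hxz1 m).2 (Bd.cyc hm0 hBd hσG) v' a hv' ha

end

/-- The minimal log discrepancies `m ≥ 0` of the pairs `(W ∋ w, B_W)` with `IsArrQuot d Γ`. -/
def arrQuotMlds (d : ℕ) (Γ : Set ℝ) : Set ℝ :=
  {m : ℝ | 0 ≤ m ∧ ∃ (KW : Type) (_ : Field KW) (_ : Algebra ℂ KW) (W : AffVar KW) (BW : EffDiv W)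
    (EW : ∀ w : Pt W, LocEq BW w) (w : Pt W), IsArrQuot d Γ EW w ∧
    Pool.Agent.W497.Mld.IsMld (EW w) m}

theorem arrQuot_sub (d : ℕ) (Γ : Set ℝ) : arrQuotMlds d Γ ⊆ etMlds d Γ := by
  rintro m ⟨hm0, KW, _, _, W, BW, EW, w, hT, hm⟩
  obtain ⟨K0, K, _, _, _, _, _, _, Z, BZ, EZ, X, B, E, G, z, x, _, hq, hxz, hx, hc⟩ := hT
  have hmz : Pool.Agent.W497.Mld.IsMld (EZ z) m := by
    obtain ⟨L, _, _, _, _, _, _, S, h, h', T, T', hT, hT', ⟨y, rfl, rfl⟩, hag⟩ := hc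
    have key : {a | ∃ v, IsOverGerm (h.im y) v ∧ IsLogDisc (EW (h.im y)) v a} =
        {a | ∃ v, IsOverGerm (h'.im y) v ∧ IsLogDisc (EZ (h'.im y)) v a} := by
      ext a
      exact log_eq up (down dens frac) dens (extd frac) appr chg EW EZ h h' T T' hT hT' y
        (fun w hw => hag y w hw) a
    unfold Pool.Agent.W497.Mld.IsMld at hm ⊢
    rwa [key] at hm
  obtain ⟨σ, hσ, hf, hcyc⟩ := hq.mld_cyc hxz hm0 hmz
  obtain ⟨K1, _, _, _, _, Z1, B1, E1, z1, hq1, hxz1, harr⟩ := hx σ hσ hf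
  exact ⟨hm0, K1, inferInstance, inferInstance, Z1, B1, E1, z1, harr, hcyc hq1 hxz1⟩

theorem arrQuot_acc (d : ℕ) {Γ : Set ℝ} (hΓ : Pool.Agent.TH165.ACC.IsDCC Γ) :
    Pool.Agent.TH165.ACC.IsACC (arrQuotMlds d Γ) := by
  have h := arr_acc' d Γ hΓ
  have hsub := etMlds_sub up (down dens frac) dens (extd frac) appr chg d Γ
  intro x hmono hx
  exact h x hmono fun n => hsub (arrQuot_sub d Γ (hx n))

end Run7.h530.TQ
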