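import Pool.Agent.Run7.h530.TQ.Fin

/-!
# Example: toric pairs and monomial groups
-/

set_option autoImplicit false
set_option linter.unusedSectionVars false

namespace Run7.h530.TQ

open Pool.Agent.H436R3.Fol Pool.Agent.H436R3.KT Pool.Agent.W497.Mld Pool.Agent.Helper58K9.ET
open Q47.QM Q47.TV Pool.Agent.Helper58K9.AR

variable {n : ℕ} {M : Type} [Field M] [Algebra ℂ M]
  [Algebra (MvPolynomial (Fin n) ℂ) M] [IsFractionRing (MvPolynomial (Fin n) ℂ) M]
  [IsScalarTower ℂ (MvPolynomial (Fin n) ℂ) M]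

/-- a monomial automorphism of a toric pair -/
noncomputable def idChart (g : TorAff n M) {B : EffDiv g.X}
    (htor : ∀ v : DVal M, (∀ i : Fin n, v.ord (cv M i) = 0) → B.mult v = 0)
    (E : ∀ x : Pt g.X, LocEq B x) (x : Pt g.X) (σ : M ≃ₐ[ℂ] M)
    (haut : ∀ f, σ f ∈ g.X.R ↔ f ∈ g.X.R) (hσ : IsMono n σ) (hx : FixesPt x σ) :
    EChart n M E x σ where
  g := g
  B' := B
  htor := htor
  E' := E
  τ := σ
  aut := haut
  mono := hσ
  L := M
  aK := Algebra.id M
  sK := inferInstance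
  aM := Algebra.id M
  sM := inferInstance
  S := g.X.R
  hX := idEtale g.X
  hY := idEtale g.X
  T := g.X.T
  hT := ⟨g.X.top, fun _ _ => rfl⟩
  T' := g.X.T
  hT' := ⟨g.X.top, fun _ _ => rfl⟩
  ρ := σ
  autS := haut
  comX := fun _ => rfl
  comY := fun _ => rfl
  u := x
  pt := idEtale_im g.X x
  fixU := hx
  agree := by
    intro y w _ k k' hk hk'
    rw [hk.unique hk']

/-- the quotients of toric pairs by finite groups of monomial automorphisms -/
theorem torQuot_of_mono {Γ : Set ℝ} (g : TorAff n (FractionRing (MvPolynomial (Fin n) ℂ)))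
    {B : EffDiv g.X} (hB : CoeffIn B Γ)
    (htor : ∀ v : DVal (FractionRing (MvPolynomial (Fin n) ℂ)),
      (∀ i : Fin n, v.ord (cv (FractionRing (MvPolynomial (Fin n) ℂ)) i) = 0) → B.mult v = 0)
    (E : ∀ x : Pt g.X, LocEq B x)
    (G : Subgroup (FractionRing (MvPolynomial (Fin n) ℂ) ≃ₐ[ℂ]
      FractionRing (MvPolynomial (Fin n) ℂ))) [Finite G] (hG : ∀ σ ∈ G, IsMono n σ)
    {K0 : Type} [Field K0] [Algebra ℂ K0] [Algebra K0 (FractionRing (MvPolynomial (Fin n) ℂ))]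
    [IsScalarTower ℂ K0 (FractionRing (MvPolynomial (Fin n) ℂ))] {Z : AffVar K0} {BZ : EffDiv Z}
    {EZ : ∀ z : Pt Z, LocEq BZ z} (hq : IsQuot EZ E G) {x : Pt g.X} {z : Pt Z}
    (hxz : LiesOver x z) : IsTorQuot n Γ EZ z :=
  ⟨K0, _, inferInstance, inferInstance, inferInstance, inferInstance, inferInstance,
    inferInstance, Z, BZ, EZ, g.X, B, E, G, z, x, inferInstance, hq, hxz, fun σ hσ hx =>
      ⟨idChart g htor E x σ (hq.aut σ hσ) (hG σ hσ) hx, hB⟩, common_refl EZ z⟩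

/-- a normal pair is its quotient by the trivial group -/
theorem isQuot_bot {K : Type} [Field K] [Algebra ℂ K] {X : AffVar K} {B : EffDiv X}
    (E : ∀ x : Pt X, LocEq B x) (hX : IsNormal X) :
    IsQuot E E (⊥ : Subgroup (K ≃ₐ[ℂ] K)) where
  normal := hX
  inv σ hσ f := by rw [Subgroup.mem_bot.1 hσ]; rfl
  fix f _ := ⟨f, rfl⟩
  aut σ hσ f := by rw [Subgroup.mem_bot.1 hσ]; exact Iff.rfl
  ring f := Iff.rfl
  pull := by
    refine ⟨X.T, ⟨X.top, fun _ _ => rfl⟩, fun x z hxz w _ k k' hk hk' => ?_⟩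
    have h1 : x = z := by
      ext f
      exact hxz f f rfl
    subst h1
    rw [hk.unique hk']
    rfl

end Run7.h530.TQ
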