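import Pool.Agent.Helper58K9.ET.Defs

/-!
# The quotient of a pair by a finite group: definitions
-/

set_option autoImplicit false

namespace Run7.h530.TQ

open Pool.Agent.H436R3.Fol Pool.Agent.H436R3.KT Pool.Agent.W497.Mld Pool.Agent.Helper58K9.ET

variable {K0 K : Type} [Field K0] [Algebra ℂ K0] [Field K] [Algebra ℂ K] [Algebra K0 K]

/-- The closed point `x` of `X` lies over the closed point `z` of `Z`. -/
def LiesOver {Z : AffVar K0} {X : AffVar K} (x : Pt X) (z : Pt Z) : Prop :=
  ∀ (f : Z.R) (f' : X.R), (f' : K) = algebraMap K0 K f → x f' = z f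

/-- The pair `(Z, B_Z)`, `Z` with the function field `K0`, is the quotient of the pair `(X, B)`, `X`
normal with the function field `K`, by the group `G` of automorphisms of `X`: `K0` is the field of
the invariants of `G` in `K`, the coordinate ring of `Z` is the ring of the invariants in the
coordinate ring of `X`, and `K_X + B` is the pull-back of `K_Z + B_Z`, near the closed points of `X`.
The latter is expressed with a basis `T` of the rational vector fields of `X` which extends the basis
`Z.T` of the rational vector fields of `Z`: the canonical divisor of `X` given by `T` is the divisor of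
the pull-back of the form whose divisor is the canonical divisor of `Z`. -/
structure IsQuot {Z : AffVar K0} {BZ : EffDiv Z} (EZ : ∀ z : Pt Z, LocEq BZ z)
    {X : AffVar K} {B : EffDiv X} (E : ∀ x : Pt X, LocEq B x) (G : Subgroup (K ≃ₐ[ℂ] K)) :
    Prop where
  normal : IsNormal X
  inv : ∀ σ ∈ G, ∀ f : K0, σ (algebraMap K0 K f) = algebraMap K0 K f
  fix : ∀ f : K, (∀ σ ∈ G, σ f = f) → ∃ f0 : K0, algebraMap K0 K f0 = f
  aut : ∀ σ ∈ G, ∀ f, σ f ∈ X.R ↔ f ∈ X.R
  ring : ∀ f : K0, f ∈ Z.R ↔ algebraMap K0 K f ∈ X.R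
  pull : ∃ T : Foliation K Z.d, Ext Z T ∧ ∀ (x : Pt X) (z : Pt Z), LiesOver x z →
    ∀ w, IsOverGerm x w → ∀ k k' : ℤ, IsCanOrd X.T w k → IsCanOrd T w k' →
      (k : ℝ) - ∑ i, (E x).ρ i * (w.ord ((E x).g i) : ℝ) = (k' : ℝ) - ordE (EZ z) w

end Run7.h530.TQ
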