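import Pool.Agent.Q47.TV.EtAcc
import Pool.Agent.Q47.TV.Loc
import Pool.Agent.Helper58K9.ET.Asm
import Pool.Agent.Helper58K9.ET.Dens
import Pool.Agent.Helper58K9.ET.Down
import Pool.Agent.Helper58K9.ET.Up
import Pool.Agent.Helper58K9.ET.Extd
import Pool.Agent.Helper58K9.ET.Appr
import Pool.Agent.Helper58K9.ET.Chg
import Pool.Agent.Helper58K9.ET.Opn

/-!
# Standard étale morphisms have the properties used for quotients

`Etale X S` (standard étale varieties over `X`) implies `IsEtale` at every closed point.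
-/

set_option autoImplicit false
set_option linter.unusedSectionVars false

namespace Run7.h530.TQ

open Pool.Agent.H436R3.Fol Pool.Agent.H436R3.KT Pool.Agent.W497.Mld Pool.Agent.Helper58K9.ET
open Q47.QM Q47.TV
open Polynomial (aeval)

section same

variable {K : Type} [Field K] [Algebra ℂ K]

theorem same_pos {v w : DVal K} (h : SameDiv v w) {f : K} : v.Pos f ↔ w.Pos f := by
  by_cases hf : f = 0
  · simp only [DVal.Pos, hf, true_or]
  · simp only [DVal.Pos, hf, false_or, h f hf]

theorem same_reg {v w : DVal K} (h : SameDiv v w) {f : K} : v.Reg f ↔ w.Reg f := by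
  by_cases hf : f = 0
  · simp only [DVal.Reg, hf, true_or]
  · simp only [DVal.Reg, hf, false_or, h f hf]

theorem same_loc {v w : DVal K} (h : SameDiv v w) {S : Subalgebra ℂ K} (hv : IsLocalRing' S v) :
    IsLocalRing' S w := by
  refine ⟨fun f hf => (same_reg h).1 (hv.1 f hf), fun f hf => ?_⟩
  obtain ⟨a, b, ha, hb, hb0, ho, hab⟩ := hv.2 f ((same_reg h).2 hf)
  exact ⟨a, b, ha, hb, hb0, by rw [← h b hb0]; exact ho, hab⟩

theorem same_over {X : AffVar K} {x : Pt X} {v w : DVal K} (h : SameDiv v w)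
    (hv : IsOverGerm x v) : IsOverGerm x w := by
  obtain ⟨⟨S, hS, hXS, hl⟩, hx⟩ := hv
  exact ⟨⟨S, hS, hXS, same_loc h hl⟩, fun f => by rw [← same_pos h]; exact hx f⟩

theorem same_can {v w : DVal K} (h : SameDiv v w) {r : ℕ} {T : Foliation K r} {n : ℤ}
    (hn : IsCanOrd T v n) : IsCanOrd T w n := by
  have hset : {m : ℤ | ∃ A : Matrix (Fin r) (Fin r) K, A.det ≠ 0 ∧
      (∀ i, Preserves v (∑ j, A i j • T.D j)) ∧ v.ord A.det = m} =
      {m : ℤ | ∃ A : Matrix (Fin r) (Fin r) K, A.det ≠ 0 ∧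
      (∀ i, Preserves w (∑ j, A i j • T.D j)) ∧ w.ord A.det = m} := by
    ext m
    refine exists_congr fun A => and_congr_right fun hA => and_congr (forall_congr' fun i => ?_) ?_
    · exact forall_congr' fun f => imp_congr (same_reg h) (same_reg h)
    · rw [h _ hA]
  unfold IsCanOrd at hn ⊢
  rwa [← hset]

/-- the valuation with another (meaningless) value at zero -/
noncomputable def setz (v : DVal K) (z : ℤ) : DVal K := by
  classical
  exact
  { ord := fun f => if f = 0 then z else v.ord f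
    map_mul := fun f g hf hg => by
      rw [if_neg (mul_ne_zero hf hg), if_neg hf, if_neg hg]
      exact v.map_mul f g hf hg
    map_add := fun f g hf hg h => by
      rw [if_neg hf, if_neg hg, if_neg h]
      exact v.map_add f g hf hg h
    surj := by
      obtain ⟨f, hf, h⟩ := v.surj
      exact ⟨f, hf, by rw [if_neg hf]; exact h⟩
    const := fun c hc => by
      rw [if_neg (alg_ne hc)]
      exact v.const c hc }

theorem setz_ord {v : DVal K} {z : ℤ} {f : K} (hf : f ≠ 0) : (setz v z).ord f = v.ord f :=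
  if_neg hf

theorem setz_zero {v : DVal K} {z : ℤ} : (setz v z).ord 0 = z := if_pos rfl

theorem setz_same (v : DVal K) (z : ℤ) : SameDiv v (setz v z) := fun _ hf => (setz_ord hf).symm

end same

section et

variable {K L : Type} [Field K] [Algebra ℂ K] [Field L] [Algebra ℂ L] [Algebra K L]
  [IsScalarTower ℂ K L]

theorem aeval_cong {w : DVal L} {t : L} {c : K} (ht : w.Reg t) (hc : w.Reg (algebraMap K L c))
    (htc : w.Pos (t - algebraMap K L c)) {A : Polynomial K}
    (hA : ∀ i, w.Reg (algebraMap K L (A.coeff i))) :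
    w.Pos (aeval t A - algebraMap K L (A.eval c)) := by
  rw [Polynomial.aeval_eq_sum_range, Polynomial.eval_eq_sum_range, map_sum,
    ← Finset.sum_sub_distrib]
  have hp : ∀ i : ℕ, w.Pos (t ^ i - algebraMap K L c ^ i) := by
    intro i
    induction i with
    | zero => rw [pow_zero, pow_zero, sub_self]; exact pos_zero
    | succ i ih =>
      have e1 : t ^ (i + 1) - algebraMap K L c ^ (i + 1) =
          t * (t ^ i - algebraMap K L c ^ i) +
            algebraMap K L c ^ i * (t - algebraMap K L c) := by ring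
      rw [e1]
      exact w.pos_add (w.pos_mul_left ht ih) (w.pos_mul_left (ExtdL.reg_pow hc i) htc)
  have hs : ∀ s : Finset ℕ,
      w.Pos (∑ i ∈ s, (A.coeff i • t ^ i - algebraMap K L (A.coeff i * c ^ i))) := by
    intro s
    induction s using Finset.induction_on with
    | empty => rw [Finset.sum_empty]; exact pos_zero
    | insert a s ha ih =>
      rw [Finset.sum_insert ha]
      refine w.pos_add ?_ ih
      rw [Algebra.smul_def, map_mul, map_pow, ← mul_sub]
      exact w.pos_mul_left (hA a) (hp a)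
  exact hs _

variable {X : AffVar K} {S : Subalgebra ℂ L}

theorem et_tc (h : Etale X S) {y : S →ₐ[ℂ] ℂ} {w : DVal L} (hw : OverPt S y w) :
    w.Pos (h.t - algebraMap K L (algebraMap ℂ K (y ⟨h.t, UpL.t_mem h⟩))) := by
  have h1 := (hw.2 (⟨h.t, UpL.t_mem h⟩ - algebraMap ℂ S (y ⟨h.t, UpL.t_mem h⟩))).2 (by
    rw [map_sub, AlgHom.commutes]; exact sub_self _)
  rw [← IsScalarTower.algebraMap_apply]
  exact h1

theorem posK {w w' : DVal L}
    (hKK : ∀ f : K, f ≠ 0 → w.ord (algebraMap K L f) = w'.ord (algebraMap K L f)) (f : K) :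
    w.Pos (algebraMap K L f) ↔ w'.Pos (algebraMap K L f) := by
  by_cases hf : f = 0
  · simp only [DVal.Pos, hf, map_zero, true_or]
  · simp only [DVal.Pos, hKK f hf]

theorem regK {w w' : DVal L}
    (hKK : ∀ f : K, f ≠ 0 → w.ord (algebraMap K L f) = w'.ord (algebraMap K L f)) (f : K) :
    w.Reg (algebraMap K L f) ↔ w'.Reg (algebraMap K L f) := by
  by_cases hf : f = 0
  · simp only [DVal.Reg, hf, map_zero, true_or]
  · simp only [DVal.Reg, hKK f hf]

theorem et_unit (h : Etale X S) {y : S →ₐ[ℂ] ℂ} {w w' : DVal L} (hw : OverPt S y w)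
    (hw' : OverPt S y w')
    (hKK : ∀ f : K, f ≠ 0 → w.ord (algebraMap K L f) = w'.ord (algebraMap K L f))
    {B : Polynomial K} (hB : ∀ i, w.Reg (algebraMap K L (B.coeff i))) (h0 : aeval h.t B ≠ 0)
    (h1 : w.ord (aeval h.t B) = 0) : w'.ord (aeval h.t B) = 0 := by
  have hB' : ∀ i, w'.Reg (algebraMap K L (B.coeff i)) := fun i => (regK hKK _).1 (hB i)
  have ht : w.Reg h.t := reg_of_over hw ⟨h.t, UpL.t_mem h⟩
  have ht' : w'.Reg h.t := reg_of_over hw' ⟨h.t, UpL.t_mem h⟩
  set c : K := algebraMap ℂ K (y ⟨h.t, UpL.t_mem h⟩) with hc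
  have hcr : ∀ w : DVal L, w.Reg (algebraMap K L c) := fun w => by
    rw [hc, ← IsScalarTower.algebraMap_apply]
    exact w.reg_const _
  have e := aeval_cong ht (hcr w) (et_tc h hw) hB
  have e' := aeval_cong ht' (hcr w') (et_tc h hw') hB'
  have h2 : ¬ w.Pos (algebraMap K L (B.eval c)) := fun h2 => by
    have h3 := w.pos_add e h2
    rw [sub_add_cancel] at h3
    exact not_pos h0 h1 h3
  have h3 : ¬ w'.Pos (aeval h.t B) := fun h3 => by
    apply h2
    rw [posK hKK]
    have h4 := pos_sub h3 e'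
    rwa [sub_sub_cancel] at h4
  have h4 : w'.Reg (aeval h.t B) := ExtdL.reg_aeval ht' hB'
  have h5 := h4.resolve_left h0
  by_contra h6
  exact h3 (Or.inr (by omega))

theorem et_reg (h : Etale X S) {y : S →ₐ[ℂ] ℂ} {w w' : DVal L} (hw : OverPt S y w)
    (hw' : OverPt S y w')
    (hKK : ∀ f : K, f ≠ 0 → w.ord (algebraMap K L f) = w'.ord (algebraMap K L f))
    {f : L} (hf : w.Reg f) : w'.Reg f := by
  by_cases hf0 : f = 0
  · exact Or.inl hf0
  obtain ⟨A, B, hA, hB, hB0, hBo, hAB⟩ := frac h y w hw.2 (reg_of_over hw) f hf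
  have hBo' := et_unit h hw hw' hKK hB hB0 hBo
  have ht' : w'.Reg h.t := reg_of_over hw' ⟨h.t, UpL.t_mem h⟩
  have hAr : w'.Reg (aeval h.t A) := ExtdL.reg_aeval ht' fun i => (regK hKK _).1 (hA i)
  rw [← hAB] at hAr
  have h1 := hAr.resolve_left (mul_ne_zero hf0 hB0)
  rw [w'.map_mul _ _ hf0 hB0, hBo', add_zero] at h1
  exact Or.inr h1

theorem et_zero (h : Etale X S) {y : S →ₐ[ℂ] ℂ} {w w' : DVal L} (hw : OverPt S y w)
    (hw' : OverPt S y w')
    (hKK : ∀ f : K, f ≠ 0 → w.ord (algebraMap K L f) = w'.ord (algebraMap K L f))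
    {f : L} (hf : f ≠ 0) (h0 : w.ord f = 0) : w'.ord f = 0 := by
  have h1 := (et_reg h hw hw' hKK (f := f) (Or.inr h0.ge)).resolve_left hf
  have h2 := (et_reg h hw hw' hKK (f := f⁻¹) (Or.inr (by
    rw [w.ord_inv hf, h0, neg_zero]))).resolve_left (inv_ne_zero hf)
  rw [w'.ord_inv hf] at h2
  omega

/-- a divisor over a point of `U` is determined by its restriction -/
theorem et_uniq (h : Etale X S) {y : S →ₐ[ℂ] ℂ} {w w' : DVal L} (hw : OverPt S y w)
    (hw' : OverPt S y w')
    (hKK : ∀ f : K, f ≠ 0 → w.ord (algebraMap K L f) = w'.ord (algebraMap K L f))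
    {f : L} (hf : f ≠ 0) : w.ord f = w'.ord f := by
  obtain ⟨g, hg, hgp⟩ := dens h y w hw.2 (reg_of_over hw) f hf
  have hg' : algebraMap K L g ≠ 0 := (_root_.map_ne_zero _).2 hg
  obtain ⟨h1, h2⟩ := DensL.one_pos_ne w hgp
  have h3 := et_zero h hw hw' hKK h1 h2
  rw [w.ord_div hf hg'] at h2
  rw [w'.ord_div hf hg'] at h3
  have h4 := hKK g hg
  omega

/-- the residue fields agree -/
theorem et_resid (h : Etale X S) {y : S →ₐ[ℂ] ℂ} {w : DVal L} (hw : OverPt S y w) {f : L}
    (hf : w.Reg f) : ∃ f0 : K, w.Pos (f - algebraMap K L f0) := by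
  by_cases h0 : f = 0
  · exact ⟨0, by rw [h0, map_zero, sub_zero]; exact pos_zero⟩
  obtain ⟨g, hg, hgp⟩ := dens h y w hw.2 (reg_of_over hw) f h0
  have hg' : algebraMap K L g ≠ 0 := (_root_.map_ne_zero _).2 hg
  obtain ⟨h1, h2⟩ := DensL.one_pos_ne w hgp
  rw [w.ord_div h0 hg'] at h2
  have h3 := hf.resolve_left h0
  refine ⟨g, ?_⟩
  have e1 : f - algebraMap K L g = algebraMap K L g * (f / algebraMap K L g - 1) := by
    field_simp
  rw [e1]
  exact w.pos_mul_left (Or.inr (by omega)) hgp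

theorem et_fg (h : Etale X S) : S.FG := by
  rw [h.hS, Algebra.adjoin_union]
  refine Subalgebra.FG.sup ?_ ?_
  · have h1 : (algebraMap K L '' (X.R : Set K)) =
        (X.R.map (IsScalarTower.toAlgHom ℂ K L) : Set L) := rfl
    rw [h1, Algebra.adjoin_eq]
    exact X.fg.map _
  · classical
    have h2 : ({h.t, (aeval h.t h.s)⁻¹} : Set L) =
        (({h.t, (aeval h.t h.s)⁻¹} : Finset L) : Set L) := by
      push_cast
      rfl
    rw [h2]
    exact Subalgebra.fg_adjoin_finset _

theorem et_aeval (h : Etale X S) (A : Polynomial X.R) : aeval h.t A ∈ S := by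
  rw [Polynomial.aeval_eq_sum_range]
  refine Subalgebra.sum_mem _ fun i _ => ?_
  rw [Algebra.smul_def]
  exact S.mul_mem (h.map_mem (A.coeff i).2) (S.pow_mem (UpL.t_mem h) _)

theorem et_frac (h : Etale X S) (f : L) : ∃ a b : L, a ∈ S ∧ b ∈ S ∧ b ≠ 0 ∧ f * b = a := by
  obtain ⟨a, rfl⟩ := h.gen f
  obtain ⟨d, hd, A, hA⟩ := UpL.clear (X' := X) (S₀ := X.R) le_rfl h.t a
  exact ⟨aeval h.t A, algebraMap K L d, et_aeval h A, h.map_mem d.2, (_root_.map_ne_zero _).2 hd, hA⟩

/-- the étale variety `U = Spec S` as a variety with a basis of vector fields -/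
noncomputable def toAff (h : Etale X S) (T : Foliation L X.d) (hT : Ext X T) : AffVar L where
  R := S
  fg := et_fg h
  frac := et_frac h
  d := X.d
  T := T
  top := hT.top

theorem isEtale {U : AffVar L} (h : Etale X U.R) (u : Pt U) :
    IsEtale (IsScalarTower.toAlgHom ℂ K L) (h.im u) u where
  map := fun f => ⟨h.inc f, rfl, rfl⟩
  restr := by
    intro w hw
    obtain ⟨v, hv, hwv⟩ := down dens frac h u w hw
    refine ⟨setz v (w.ord 0), same_over (setz_same v _) hv, fun f => ?_⟩
    by_cases hf : f = 0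
    · rw [hf, setz_zero, map_zero]
    · rw [setz_ord hf]
      exact (hwv f hf).symm
  lift := by
    intro v hv
    obtain ⟨w, hw, hwv⟩ := up h u v hv
    refine ⟨setz w (v.ord 0), same_over (X := U) (x := u) (setz_same w _) hw, fun f => ?_⟩
    by_cases hf : f = 0
    · rw [hf, map_zero, setz_zero]
    · have h1 : (IsScalarTower.toAlgHom ℂ K L) f ≠ 0 := (_root_.map_ne_zero (algebraMap K L)).2 hf
      rw [setz_ord h1]
      exact (hwv f hf).symm
  uniq := by
    intro w w' v hw hw' hr hr' f hf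
    exact et_uniq h (y := u) hw hw' (fun f _ => by
      have h1 := hr f
      have h2 := hr' f
      rw [h1] at h2
      exact h2) hf
  resid := by
    intro w hw f hf
    exact et_resid h (y := u) hw hf

end et

end Run7.h530.TQ
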