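import Pool.Agent.Run7.h530.TQ.Fin

/-!
# Reduction to cyclic groups
-/

set_option autoImplicit false
set_option linter.unusedSectionVars false

namespace Run7.h530.TQ

open Pool.Agent.H436R3.Fol Pool.Agent.H436R3.KT Pool.Agent.W497.Mld Pool.Agent.Helper58K9.ET
open Q47.QM Q47.TV Pool.Agent.Helper58K9.AR

/-- a lower bound for all log discrepancies of divisors with the given centre -/
theorem le_of_mld_le {K K' : Type} [Field K] [Algebra ℂ K] [Field K'] [Algebra ℂ K']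
    {X : AffVar K} {B : EffDiv X} {x : Pt X} {e : LocEq B x}
    {X' : AffVar K'} {B' : EffDiv X'} {x' : Pt X'} {e' : LocEq B' x'}
    (h : mld e ≤ mld e') {m : ℝ} (hm0 : 0 ≤ m)
    (hm : ∀ v a, IsOverGerm x v → IsLogDisc e v a → m ≤ a) :
    ∀ v a, IsOverGerm x' v → IsLogDisc e' v a → m ≤ a := by
  intro v a hv ha
  have h1 : ¬ ∃ v a, IsOverGerm x v ∧ IsLogDisc e v a ∧ a < 0 := by
    rintro ⟨v, a, hv, ha, h0⟩
    linarith [hm v a hv ha]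
  have h2 : (m : EReal) ≤ mld e := by
    rw [mld, if_neg h1]
    refine le_sInf ?_
    rintro _ ⟨v, r, hv, hr, rfl⟩
    exact_mod_cast hm v r hv hr
  have h3 : mld e' ≤ ((a : ℝ) : EReal) := by
    rw [mld]
    split_ifs with h4
    · exact bot_le
    · exact sInf_le ⟨v, a, hv, ha, rfl⟩
  exact_mod_cast (h2.trans h).trans h3

/-- the other direction -/
theorem mld_le_of {K K' : Type} [Field K] [Algebra ℂ K] [Field K'] [Algebra ℂ K']
    {X : AffVar K} {B : EffDiv X} {x : Pt X} {e : LocEq B x}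
    {X' : AffVar K'} {B' : EffDiv X'} {x' : Pt X'} {e' : LocEq B' x'}
    (key : ∀ m : ℝ, 0 ≤ m → (∀ v a, IsOverGerm x v → IsLogDisc e v a → m ≤ a) →
      ∀ v a, IsOverGerm x' v → IsLogDisc e' v a → m ≤ a) : mld e ≤ mld e' := by
  rw [mld]
  split_ifs with h1
  · exact bot_le
  push Not at h1
  have h2 : ¬ ∃ v a, IsOverGerm x' v ∧ IsLogDisc e' v a ∧ a < 0 := by
    rintro ⟨v, a, hv, ha, h0⟩
    have := key 0 le_rfl (fun v a hv ha => h1 v a hv ha) v a hv ha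
    linarith
  rw [mld, if_neg h2]
  refine le_sInf ?_
  rintro _ ⟨v, r, hv, hr, rfl⟩
  rw [← EReal.ge_of_forall_gt_iff_ge]
  intro m hm
  have hval : ∀ v a, IsOverGerm x v → IsLogDisc e v a →
      sInf {a : EReal | ∃ v r, IsOverGerm x v ∧ IsLogDisc e v r ∧ a = (r : EReal)} ≤
        ((a : ℝ) : EReal) := fun v a hv ha => sInf_le ⟨v, a, hv, ha, rfl⟩
  rcases le_total 0 m with h0 | h0
  · have h3 := key m h0 (fun v a hv ha => by
      have h4 := hm.le.trans (hval v a hv ha)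
      exact_mod_cast h4) v r hv hr
    exact_mod_cast h3
  · have h3 := key 0 le_rfl (fun v a hv ha => h1 v a hv ha) v r hv hr
    have h4 : m ≤ r := h0.trans h3
    exact_mod_cast h4

section

variable {K0 K : Type} [Field K0] [Algebra ℂ K0] [Field K] [Algebra ℂ K] [Algebra K0 K]
  [IsScalarTower ℂ K0 K] {Z : AffVar K0} {BZ : EffDiv Z} {EZ : ∀ z : Pt Z, LocEq BZ z}
  {X : AffVar K} {B : EffDiv X} {E : ∀ x : Pt X, LocEq B x} {G : Subgroup (K ≃ₐ[ℂ] K)}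

/-- bounds on the quotient are bounds for the quotients by the inertia orders -/
theorem IsQuot.bound_iff (hq : IsQuot EZ E G) [Finite G] {z : Pt Z} {x : Pt X}
    (hxz : LiesOver x z) (m : ℝ) :
    (∀ v a, IsOverGerm z v → IsLogDisc (EZ z) v a → m ≤ a) ↔
      ∀ v b, IsOverGerm x v → IsLogDisc (E x) v b →
        m ≤ b / Nat.card (G ⊓ Ig v : Subgroup (K ≃ₐ[ℂ] K)) := by
  constructor
  · intro h w b hw hb
    obtain ⟨v, e, hv, he, h1⟩ := hq.down hxz hw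
    rw [← hq.ram h1]
    refine h v _ hv ((hq.disc hxz hw hv he h1 _).2 ?_)
    have he' : (e : ℝ) ≠ 0 := by exact_mod_cast he.ne'
    rwa [mul_div_cancel₀ _ he']
  · intro h v a hv ha
    obtain ⟨x1, w1, e, hx1, hw1, he, h1⟩ := hq.up hv
    obtain ⟨σ, hσ, hxx⟩ := hq.trans hxz hx1
    have hw2 : IsOverGerm x (tw w1 σ) := IsQuot.over_tw' (hq.aut σ hσ) hxx hw1
    have h2 : ∀ f : K0, f ≠ 0 → (tw w1 σ).ord (algebraMap K0 K f) = e * v.ord f := by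
      intro f hf
      change w1.ord (σ (algebraMap K0 K f)) = _
      rw [hq.inv σ hσ, h1 f hf]
    have h3 := h _ _ hw2 ((hq.disc hxz hw2 hv he h2 a).1 ha)
    rw [← hq.ram h2] at h3
    have he' : (e : ℝ) ≠ 0 := by exact_mod_cast he.ne'
    rwa [mul_div_cancel_left₀ _ he'] at h3

/-- the bound for the formula -/
def Bd (E : ∀ x : Pt X, LocEq B x) (G : Subgroup (K ≃ₐ[ℂ] K)) (x : Pt X) (m : ℝ) : Prop :=
  ∀ v b, IsOverGerm x v → IsLogDisc (E x) v b →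
    m ≤ b / Nat.card (G ⊓ Ig v : Subgroup (K ≃ₐ[ℂ] K))

theorem IsQuot.lsc_of_nx (hq : IsQuot EZ E G) [Finite G] {z : Pt Z} {x : Pt X}
    (hxz : LiesOver x z) (h : NX x fun x' => ∀ m : ℝ, 0 ≤ m → Bd E G x m → Bd E G x' m) :
    ∃ q : Z.R, z q ≠ 0 ∧ ∀ z' : Pt Z, z' q ≠ 0 → mld (EZ z) ≤ mld (EZ z') := by
  obtain ⟨F, hF, hFP⟩ := h
  obtain ⟨q, hq0, hqP⟩ := hq.descent hxz hF
  refine ⟨q, hq0, fun z' hz' => mld_le_of fun m hm0 hm v a hv ha => ?_⟩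
  obtain ⟨x1, w1, e, hx1, hw1, he, h1⟩ := hq.up hv
  obtain ⟨σ, hσ, hσF⟩ := hqP z' x1 hx1 hz'
  have hxx := hq.mv_spec hσ x1
  have hx2 : LiesOver (hq.mv hσ x1) z' := hq.over_aut hσ hxx hx1
  exact (hq.bound_iff hx2 m).2 (hFP _ hσF m hm0 ((hq.bound_iff hxz m).1 hm)) v a hv ha

/-- inertia groups of the subgroup generated by a generator -/
theorem card_zpowers {σ : K ≃ₐ[ℂ] K} {G : Subgroup (K ≃ₐ[ℂ] K)} [Finite G] {v : DVal K}
    (hσ : σ ∈ G) (hI : InI v σ)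
    (hch : Ch v σ (Complex.exp (2 * Real.pi * Complex.I /
        (Nat.card (G ⊓ Ig v : Subgroup (K ≃ₐ[ℂ] K)) : ℕ)))) :
    Nat.card (Subgroup.zpowers σ ⊓ Ig v : Subgroup (K ≃ₐ[ℂ] K)) =
      Nat.card (G ⊓ Ig v : Subgroup (K ≃ₐ[ℂ] K)) := by
  have hfin : Finite (G ⊓ Ig v : Subgroup (K ≃ₐ[ℂ] K)) :=
    Set.Finite.subset (s := (G : Set (K ≃ₐ[ℂ] K))) (Set.toFinite _) fun x hx => hx.1
  have hle : (Subgroup.zpowers σ ⊓ Ig v : Subgroup (K ≃ₐ[ℂ] K)) ≤ G ⊓ Ig v :=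
    inf_le_inf_right _ (Subgroup.zpowers_le.2 hσ)
  refine Nat.dvd_antisymm (Subgroup.card_dvd_of_le hle) ?_
  have hr0 : 0 < Nat.card (G ⊓ Ig v : Subgroup (K ≃ₐ[ℂ] K)) := Nat.card_pos
  have hprim := Complex.isPrimitiveRoot_exp _ hr0.ne'
  have h0 : σ ∈ (Subgroup.zpowers σ ⊓ Ig v : Subgroup (K ≃ₐ[ℂ] K)) :=
    ⟨Subgroup.mem_zpowers σ, mem_Ig.2 hI⟩
  set s := Nat.card (Subgroup.zpowers σ ⊓ Ig v : Subgroup (K ≃ₐ[ℂ] K)) with hs
  have h2 : (⟨σ, h0⟩ : (Subgroup.zpowers σ ⊓ Ig v : Subgroup (K ≃ₐ[ℂ] K))) ^ s = 1 :=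
    pow_card_eq_one'
  have h3 : σ ^ s = 1 := by
    have h3 := congrArg Subtype.val h2
    simpa using h3
  have h4 := Ch.pow' hI hch s
  rw [h3] at h4
  exact (hprim.pow_eq_one_iff_dvd _).1 (h4.uniq Ch.one)

/-- the local property for one cyclic quotient -/
theorem IsQuot.nx_cyc {Kσ : Type} [Field Kσ] [Algebra ℂ Kσ] [Algebra Kσ K] [IsScalarTower ℂ Kσ K]
    {Zσ : AffVar Kσ} {Bσ : EffDiv Zσ} {Eσ : ∀ z : Pt Zσ, LocEq Bσ z} {C : Subgroup (K ≃ₐ[ℂ] K)}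
    [Finite C] (hq : IsQuot Eσ E C) {x : Pt X} {z : Pt Zσ} (hxz : LiesOver x z)
    (h : ∃ f : Zσ.R, z f ≠ 0 ∧ ∀ z' : Pt Zσ, z' f ≠ 0 → mld (Eσ z) ≤ mld (Eσ z')) :
    NX x fun x' => ∀ m : ℝ, 0 ≤ m → Bd E C x m → Bd E C x' m := by
  obtain ⟨f, hf, hfP⟩ := h
  refine ⟨hq.incl f, by rw [hq.over_incl hxz]; exact hf, fun x' hx' m hm0 hm => ?_⟩
  obtain ⟨z', hz'⟩ := hq.exists_im x'
  rw [hq.over_incl hz'] at hx'
  exact (hq.bound_iff hz' m).1 (le_of_mld_le (hfP z' hx') hm0 ((hq.bound_iff hxz m).2 hm))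

theorem nx_of_cyc [Finite G] (x : Pt X)
    (h : ∀ σ ∈ G, FixesPt x σ → NX x fun x' => ∀ m : ℝ, 0 ≤ m →
      Bd E (Subgroup.zpowers σ) x m → Bd E (Subgroup.zpowers σ) x' m) :
    NX x fun x' => ∀ m : ℝ, 0 ≤ m → Bd E G x m → Bd E G x' m := by
  have hmain : ∀ σ : G, NX x fun x' => (FixesPt x' σ.1 → FixesPt x σ.1) ∧
      (FixesPt x σ.1 → ∀ m : ℝ, 0 ≤ m →
        Bd E (Subgroup.zpowers σ.1) x m → Bd E (Subgroup.zpowers σ.1) x' m) := by
    intro σ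
    refine (nx_fix x σ.1).and ?_
    by_cases hf : FixesPt x σ.1
    · exact (h σ.1 σ.2 hf).mono fun x' hx' _ => hx'
    · exact NX.all fun _ h => absurd h hf
  refine (NX.finite hmain).mono ?_
  intro x' hx' m hm0 hm v b hov hb
  obtain ⟨hr, σ, hσG, hI, hσr, hch⟩ := exists_gen G v
  obtain ⟨h1, h2⟩ := hx' ⟨σ, hσG⟩
  have h3 := h2 (h1 (fixesPt_of_InI hov hI)) m hm0 (fun v' b' hov' hb' => by
    refine (hm v' b' hov' hb').trans ?_
    have hb0 : 0 ≤ b' := by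
      have h4 := hm0.trans (hm v' b' hov' hb')
      have h5 : (0 : ℝ) < Nat.card (G ⊓ Ig v' : Subgroup (K ≃ₐ[ℂ] K)) := by
        exact_mod_cast (exists_gen G v').1
      by_contra hneg
      push Not at hneg
      exact absurd h4 (not_le.2 (div_neg_of_neg_of_pos hneg h5))
    have hle : (Subgroup.zpowers σ ⊓ Ig v' : Subgroup (K ≃ₐ[ℂ] K)) ≤ G ⊓ Ig v' :=
      inf_le_inf_right _ (Subgroup.zpowers_le.2 hσG)
    have hfin : Finite (G ⊓ Ig v' : Subgroup (K ≃ₐ[ℂ] K)) :=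
      Set.Finite.subset (s := (G : Set (K ≃ₐ[ℂ] K))) (Set.toFinite _) fun x hx => hx.1
    have hfin' : Finite (Subgroup.zpowers σ ⊓ Ig v' : Subgroup (K ≃ₐ[ℂ] K)) :=
      Finite.of_injective (Subgroup.inclusion hle) (Subgroup.inclusion_injective _)
    have hpos : 0 < Nat.card (Subgroup.zpowers σ ⊓ Ig v' : Subgroup (K ≃ₐ[ℂ] K)) :=
      Nat.card_pos
    refine div_le_div_of_nonneg_left hb0 (by exact_mod_cast hpos) ?_
    exact_mod_cast Nat.le_of_dvd Nat.card_pos (Subgroup.card_dvd_of_le hle)) v b hov hb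
  rwa [card_zpowers hσG hI hch] at h3

end

end Run7.h530.TQ
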