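import Pool.Agent.Q47.TV.Loc
import Pool.Agent.Helper58K9.ET.Defs

/-!
# Equivariant étale toric charts: definitions

`X` is a complex affine variety with function field `K`, `B` an effective `ℝ`-divisor on it, `E` gives
local equations of `K_X + B` at the closed points, and `σ` is an automorphism of `K`.
-/

set_option autoImplicit false

namespace Run7.h530.TQ

open Pool.Agent.H436R3.Fol Pool.Agent.H436R3.KT Pool.Agent.W497.Mld Pool.Agent.Helper58K9.ET
open Q47.QM Q47.TV

/-- The closed point `u` of `U = Spec S` is fixed by the automorphism `ρ`. -/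
def FixU {L : Type} [Field L] [Algebra ℂ L] {S : Subalgebra ℂ L} (u : S →ₐ[ℂ] ℂ)
    (ρ : L ≃ₐ[ℂ] L) : Prop :=
  ∀ f f' : S, (f' : L) = ρ f → u f = u f'

/-- An étale toric chart at the closed point `x` of `X` for the automorphism `σ`:
* an affine toric variety `Y = g.X` of dimension `n`, with function field `M`, with a torus invariant
  boundary `B'` (a prime divisor with a nonzero multiplicity is not a divisor of the torus), local
  equations `E'` of `K_Y + B'`, and a monomial automorphism `τ` of `Y`;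
* an affine variety `U = Spec S` with function field `L` and étale morphisms `U → X`, `U → Y` (`hX`,
  `hY`), bases `T`, `T'` of the rational vector fields of `U` which extend the ones of `X` and `Y`;
* an automorphism `ρ` of `U` which lies over `σ` and over `τ`, and a closed point `u` of `U` over `x`
  which is fixed by `ρ`;
* the pull-backs of `K_X + B` and of `K_Y + B'` to `U` agree: they have the same difference with the
  canonical divisor of `U`. -/
structure EChart (n : ℕ) (M : Type) [Field M] [Algebra ℂ M]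
    [Algebra (MvPolynomial (Fin n) ℂ) M] [IsFractionRing (MvPolynomial (Fin n) ℂ) M]
    [IsScalarTower ℂ (MvPolynomial (Fin n) ℂ) M] {K : Type} [Field K] [Algebra ℂ K]
    {X : AffVar K} {B : EffDiv X} (E : ∀ x : Pt X, LocEq B x) (x : Pt X) (σ : K ≃ₐ[ℂ] K) where
  g : TorAff n M
  B' : EffDiv g.X
  htor : ∀ v : DVal M, (∀ i : Fin n, v.ord (cv M i) = 0) → B'.mult v = 0
  E' : ∀ y : Pt g.X, LocEq B' y
  τ : M ≃ₐ[ℂ] M
  aut : ∀ c, τ c ∈ g.X.R ↔ c ∈ g.X.R
  mono : IsMono n τ
  L : Type
  [fL : Field L]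
  [aL : Algebra ℂ L]
  [aK : Algebra K L]
  [sK : IsScalarTower ℂ K L]
  [aM : Algebra M L]
  [sM : IsScalarTower ℂ M L]
  S : Subalgebra ℂ L
  hX : Etale X S
  hY : Etale g.X S
  T : Foliation L X.d
  hT : Ext X T
  T' : Foliation L g.X.d
  hT' : Ext g.X T'
  ρ : L ≃ₐ[ℂ] L
  autS : ∀ f, ρ f ∈ S ↔ f ∈ S
  comX : ∀ f, ρ (algebraMap K L f) = algebraMap K L (σ f)
  comY : ∀ f, ρ (algebraMap M L f) = algebraMap M L (τ f)
  u : S →ₐ[ℂ] ℂ
  pt : hX.im u = x
  fixU : FixU u ρ
  agree : ∀ y w, OverPt S y w → ∀ k k' : ℤ, IsCanOrd T w k → IsCanOrd T' w k' →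
    (k : ℝ) - ordE (E (hX.im y)) w = (k' : ℝ) - ordE (E' (hY.im y)) w

attribute [instance] EChart.fL EChart.aL EChart.aK EChart.sK EChart.aM EChart.sM

end Run7.h530.TQ
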