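import Pool.Agent.Run7.h530.TQ.Bridge

/-!
# Fixed points and the order of automorphisms of étale varieties
-/

set_option autoImplicit false
set_option linter.unusedSectionVars false

namespace Run7.h530.TQ

open Pool.Agent.H436R3.Fol Pool.Agent.H436R3.KT Pool.Agent.W497.Mld Pool.Agent.Helper58K9.ET
open Q47.QM Q47.TV
open Polynomial OpnL

variable {K L : Type} [Field K] [Algebra ℂ K] [Field L] [Algebra ℂ L] [Algebra K L]
  [IsScalarTower ℂ K L] {X : AffVar K} {S : Subalgebra ℂ L}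

theorem der_ne (h : Etale X S) : aeval h.t (derivative (minpoly K h.t)) ≠ 0 := by
  intro h0
  have : CharZero K := charZero_of_injective_algebraMap (algebraMap ℂ K).injective
  have hsep : (minpoly K h.t).Separable := (minpoly.irreducible h.int).separable
  obtain ⟨a, b, hab⟩ := hsep
  have h1 := congrArg (aeval h.t) hab
  rw [map_add, map_mul, map_mul, minpoly.aeval, h0, mul_zero, mul_zero, add_zero, map_one] at h1
  exact zero_ne_one h1

/-- the values of the polynomials at the element `t'` of `S` -/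
noncomputable def phS (h : Etale X S) (t' : S) : X.R[X] →+* S :=
  Polynomial.eval₂RingHom h.inc.toRingHom t'

theorem phS_coe (h : Etale X S) (t' : S) (A : X.R[X]) :
    ((phS h t' A : S) : L) = ps X (t' : L) A := by
  have h2 : (S.val.toRingHom.comp (phS h t')) = ps X (t' : L) := by
    refine Polynomial.ringHom_ext (fun a => ?_) ?_
    · simp only [phS, RingHom.comp_apply, coe_eval₂RingHom, eval₂_C, ps_C]
      rfl
    · simp only [phS, RingHom.comp_apply, coe_eval₂RingHom, eval₂_X, ps_X]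
      rfl
  exact congrArg (fun g => g A) h2

theorem phS_val (h : Etale X S) (u : S →ₐ[ℂ] ℂ) (t' : S) (A : X.R[X]) :
    u (phS h t' A) = vx (h.im u) (u t') A := by
  have h4 : (u.toRingHom.comp (phS h t')) = vx (h.im u) (u t') := by
    refine Polynomial.ringHom_ext (fun a => ?_) ?_
    · simp only [phS, RingHom.comp_apply, coe_eval₂RingHom, eval₂_C, vx_C]
      rfl
    · simp only [phS, RingHom.comp_apply, coe_eval₂RingHom, eval₂_X, vx_X]
      rfl
  exact congrArg (fun g => g A) h4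

/-- the generator as an element of `S` -/
def tS (h : Etale X S) : S := ⟨h.t, UpL.t_mem h⟩

theorem exists_delta (h : Etale X S) (D : Dt h) (u : S →ₐ[ℂ] ℂ) (t' : S)
    (hu : u t' = u (tS h)) :
    ∃ δ : S, u δ ≠ 0 ∧ phS h t' D.P = (t' - tS h) * δ := by
  have hev : ∀ s : S, phS h s D.P = (D.P.map h.inc.toRingHom).eval s := fun s => by
    rw [phS, coe_eval₂RingHom, eval_map]
  obtain ⟨k, hk⟩ := Polynomial.binomExpansion (D.P.map h.inc.toRingHom) (tS h) (t' - tS h)
  have h0 : (D.P.map h.inc.toRingHom).eval (tS h) = 0 := by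
    rw [← hev]
    apply Subtype.ext
    rw [phS_coe]
    exact psP D
  refine ⟨(derivative (D.P.map h.inc.toRingHom)).eval (tS h) + k * (t' - tS h), ?_, ?_⟩
  · rw [map_add, map_mul, map_sub, hu, sub_self, mul_zero, add_zero]
    have h1 : (((derivative (D.P.map h.inc.toRingHom)).eval (tS h) : S) : L) =
        aeval h.t (derivative (minpoly K h.t)) := by
      rw [derivative_map, eval_map]
      have h2 := phS_coe h (tS h) (derivative D.P)
      rw [phS, coe_eval₂RingHom] at h2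
      rw [h2, ps_eq, ← derivative_map, D.hP]
      rfl
    have h2 : ((derivative (D.P.map h.inc.toRingHom)).eval (tS h)) * (⟨_, h.unit⟩ : S) = 1 :=
      Subtype.ext (by
        change (((derivative (D.P.map h.inc.toRingHom)).eval (tS h) : S) : L) * _ = 1
        rw [h1]
        exact mul_inv_cancel₀ (der_ne h))
    intro h3
    have h4 := congrArg u h2
    rw [map_mul, h3, zero_mul, map_one] at h4
    exact zero_ne_one h4
  · rw [hev]
    have e1 : tS h + (t' - tS h) = t' := by ring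
    rw [e1, h0] at hk
    rw [hk]
    ring

/-- a point of `U` is determined by its image in `X` and by the value of the generator -/
theorem pt_ext (h : Etale X S) {u u' : S →ₐ[ℂ] ℂ} (him : h.im u = h.im u')
    (ht : u (tS h) = u' (tS h)) : u = u' := by
  obtain ⟨D⟩ := exists_dt h
  refine AlgHom.ext fun f => ?_
  obtain ⟨k, A, hA⟩ := form D f.2
  have key : ∀ u : S →ₐ[ℂ] ℂ, u f * vx (h.im u) (u (tS h)) D.s ^ k =
      vx (h.im u) (u (tS h)) A := by
    intro u
    have h1 : f * phS h (tS h) D.s ^ k = phS h (tS h) A := Subtype.ext (by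
      change (f : L) * ((phS h (tS h) D.s : S) : L) ^ k = ((phS h (tS h) A : S) : L)
      rw [phS_coe, phS_coe]
      exact hA)
    have h2 := congrArg u h1
    rw [map_mul, map_pow, phS_val, phS_val] at h2
    exact h2
  have hs : vx (h.im u) (u (tS h)) D.s ≠ 0 := by
    rw [← phS_val]
    intro h0
    have h1 : phS h (tS h) D.s * (⟨_, UpL.sinv_mem h⟩ : S) = 1 := Subtype.ext (by
      change ((phS h (tS h) D.s : S) : L) * (aeval h.t h.s)⁻¹ = 1
      rw [phS_coe]
      change ps X h.t D.s * _ = 1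
      rw [pss D]
      exact mul_inv_cancel₀ h.sne)
    have h2 := congrArg u h1
    rw [map_mul, h0, zero_mul, map_one] at h2
    exact zero_ne_one h2
  have h1 := key u
  have h2 := key u'
  rw [← him, ← ht] at h2
  exact mul_right_cancel₀ (pow_ne_zero k hs) (h1.trans h2.symm)

/-- the point `f ↦ u (ρ f)` -/
noncomputable def mvS (ρ : L ≃ₐ[ℂ] L) (hS : ∀ f, ρ f ∈ S ↔ f ∈ S) (u : S →ₐ[ℂ] ℂ) :
    S →ₐ[ℂ] ℂ :=
  u.comp (((ρ : L →ₐ[ℂ] L).comp S.val).codRestrict S fun f => (hS f).2 f.2)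

theorem mvS_spec (ρ : L ≃ₐ[ℂ] L) (hS : ∀ f, ρ f ∈ S ↔ f ∈ S) (u : S →ₐ[ℂ] ℂ) (f f' : S)
    (hf : (f' : L) = ρ f) : mvS ρ hS u f = u f' := by
  have h1 : f' = ⟨ρ f, (hS f).2 f.2⟩ := Subtype.ext hf
  rw [h1]
  rfl

/-- `ρ` fixes all points of a neighbourhood of the fixed point `u` whose images are fixed -/
theorem fixed_nbhd (h : Etale X S) {σ : K ≃ₐ[ℂ] K} {ρ : L ≃ₐ[ℂ] L}
    (hS : ∀ f, ρ f ∈ S ↔ f ∈ S) (hσ : ∀ f, σ f ∈ X.R ↔ f ∈ X.R)
    (hc : ∀ f, ρ (algebraMap K L f) = algebraMap K L (σ f))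
    (u : S →ₐ[ℂ] ℂ) (hu : ∀ f f' : S, (f' : L) = ρ f → u f = u f') :
    ∃ δ : S, u δ ≠ 0 ∧ ∀ u' : S →ₐ[ℂ] ℂ, u' δ ≠ 0 → FixesPt (h.im u') σ →
      ∀ f f' : S, (f' : L) = ρ f → u' f = u' f' := by
  obtain ⟨D⟩ := exists_dt h
  set t1 : S := ⟨ρ h.t, (hS _).2 (UpL.t_mem h)⟩ with ht1
  obtain ⟨δ, hδ, hδe⟩ := exists_delta h D u t1 (hu (tS h) t1 rfl).symm
  refine ⟨δ, hδ, fun u' hu' hfix => ?_⟩
  have him : h.im (mvS ρ hS u') = h.im u' := by
    refine AlgHom.ext fun f => ?_
    have h1 : h.im (mvS ρ hS u') f = u' (h.inc ⟨σ f, (hσ _).2 f.2⟩) :=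
      mvS_spec ρ hS u' (h.inc f) (h.inc ⟨σ f, (hσ _).2 f.2⟩) (by
        change algebraMap K L (σ f) = ρ (algebraMap K L f)
        rw [hc])
    rw [h1]
    exact (hfix f ⟨σ f, (hσ _).2 f.2⟩ rfl).symm
  have hφt : mvS ρ hS u' (tS h) = u' t1 := mvS_spec ρ hS u' (tS h) t1 rfl
  have hP : vx (h.im (mvS ρ hS u')) (mvS ρ hS u' (tS h)) D.P = 0 := by
    rw [← phS_val]
    have h1 : phS h (tS h) D.P = 0 := Subtype.ext (by
      rw [phS_coe]
      exact psP D)
    rw [h1, map_zero]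
  have h2 : u' (phS h t1 D.P) = 0 := by
    rw [phS_val, ← him, ← hφt]
    exact hP
  rw [hδe, map_mul, map_sub] at h2
  have h3 : u' t1 = u' (tS h) := sub_eq_zero.1 ((mul_eq_zero.1 h2).resolve_right hu')
  have h4 : mvS ρ hS u' = u' := pt_ext h him (by rw [hφt, h3])
  intro f f' hff
  rw [← mvS_spec ρ hS u' f f' hff, h4]

/-- an automorphism over `X` with a fixed point is trivial -/
theorem ord_one (h : Etale X S) {ρ : L ≃ₐ[ℂ] L} (hS : ∀ f, ρ f ∈ S ↔ f ∈ S)
    (hc : ∀ f : K, ρ (algebraMap K L f) = algebraMap K L f)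
    (u : S →ₐ[ℂ] ℂ) (hu : ∀ f f' : S, (f' : L) = ρ f → u f = u f') : ρ = 1 := by
  obtain ⟨D⟩ := exists_dt h
  let ρK : L →ₐ[K] L := { (ρ : L →+* L) with commutes' := hc }
  have hρK : ∀ f, ρK f = ρ f := fun f => rfl
  set t1 : S := ⟨ρ h.t, (hS _).2 (UpL.t_mem h)⟩ with ht1
  obtain ⟨δ, hδ, hδe⟩ := exists_delta h D u t1 (hu (tS h) t1 rfl).symm
  have h1 : phS h t1 D.P = 0 := Subtype.ext (by
    rw [phS_coe]
    change ps X (ρ h.t) D.P = 0
    rw [ps_eq, D.hP]
    have h2 := Polynomial.aeval_algHom_apply ρK h.t (minpoly K h.t)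
    rw [minpoly.aeval, map_zero] at h2
    exact h2)
  rw [h1] at hδe
  have h2 : t1 - tS h = 0 := (mul_eq_zero.1 hδe.symm).resolve_right
    (fun h0 => hδ (by rw [h0, map_zero]))
  have h3 : ρ h.t = h.t := congrArg Subtype.val (sub_eq_zero.1 h2)
  refine AlgEquiv.ext fun f => ?_
  obtain ⟨a, rfl⟩ := h.gen f
  have h4 := Polynomial.aeval_algHom_apply ρK h.t a
  rw [hρK, hρK, h3] at h4
  rw [AlgEquiv.one_apply]
  exact h4.symm

end Run7.h530.TQ
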