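import Pool.Agent.Run7.h530.TQ.Quot
import Pool.Agent.Q47.TV.EtAcc
import Pool.Agent.Helper58K9.ET.Acc
import Pool.Agent.Helper58K9.ET.Refl

/-!
# Étale local quotients of toroidal pairs
-/

set_option autoImplicit false
set_option linter.unusedSectionVars false

namespace Run7.h530.TQ

open Pool.Agent.H436R3.Fol Pool.Agent.H436R3.KT Pool.Agent.W497.Mld Pool.Agent.Helper58K9.ET
open Q47.QM Q47.TV Pool.Agent.Helper58K9.AR

/-- The pair `(W, B_W)` is at the closed point `w`, étale locally, the quotient of a toroidal pair of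
dimension `n` by a finite group: it is étale locally isomorphic (`Common`) at `w` and `z` to a pair
`(Z, B_Z)` which is the quotient (`IsQuot`) of a pair `(X, B)` by a finite group `G` of automorphisms,
`x` is a closed point of `X` over `z`, and for every element `σ` of `G` which fixes `x` there is an
étale toric chart at `x` for `σ` (`EChart`), with a torus invariant boundary with coefficients
in `Γ`. -/
def IsTorQuot (n : ℕ) (Γ : Set ℝ) {KW : Type} [Field KW] [Algebra ℂ KW] {W : AffVar KW}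
    {BW : EffDiv W} (EW : ∀ w : Pt W, LocEq BW w) (w : Pt W) : Prop :=
  ∃ (K0 K : Type) (_ : Field K0) (_ : Algebra ℂ K0) (_ : Field K) (_ : Algebra ℂ K)
    (_ : Algebra K0 K) (_ : IsScalarTower ℂ K0 K) (Z : AffVar K0) (BZ : EffDiv Z)
    (EZ : ∀ z : Pt Z, LocEq BZ z) (X : AffVar K) (B : EffDiv X) (E : ∀ x : Pt X, LocEq B x)
    (G : Subgroup (K ≃ₐ[ℂ] K)) (z : Pt Z) (x : Pt X),
    Finite G ∧ IsQuot EZ E G ∧ LiesOver x z ∧
    (∀ σ ∈ G, FixesPt x σ →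
      ∃ C : EChart n (FractionRing (MvPolynomial (Fin n) ℂ)) E x σ, CoeffIn C.B' Γ) ∧
    Common EW w EZ z

theorem torQuot_lsc {n : ℕ} {Γ : Set ℝ} {KW : Type} [Field KW] [Algebra ℂ KW] {W : AffVar KW}
    {BW : EffDiv W} {EW : ∀ w : Pt W, LocEq BW w} {w : Pt W} (h : IsTorQuot n Γ EW w) :
    ∃ f : W.R, w f ≠ 0 ∧ ∀ w' : Pt W, w' f ≠ 0 → mld (EW w) ≤ mld (EW w') := by
  obtain ⟨K0, K, _, _, _, _, _, _, Z, BZ, EZ, X, B, E, G, z, x, _, hq, hxz, hx, hc⟩ := h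
  exact lsc_of_common up (down dens frac) dens (extd frac) appr chg opn hc
    (quot_lsc hq z x hxz fun σ hσ hf => ⟨(hx σ hσ hf).choose⟩)

variable {K0 K : Type} [Field K0] [Algebra ℂ K0] [Field K] [Algebra ℂ K] [Algebra K0 K]
  [IsScalarTower ℂ K0 K] {Z : AffVar K0} {BZ : EffDiv Z} {EZ : ∀ z : Pt Z, LocEq BZ z}
  {X : AffVar K} {B : EffDiv X} {E : ∀ x : Pt X, LocEq B x} {G : Subgroup (K ≃ₐ[ℂ] K)}

/-- the group acts transitively on the fibres -/
theorem IsQuot.trans (hq : IsQuot EZ E G) [Finite G] {z : Pt Z} {x x1 : Pt X}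
    (hx : LiesOver x z) (hx1 : LiesOver x1 z) :
    ∃ σ ∈ G, ∀ f f' : X.R, (f' : K) = σ f → x f = x1 f' := by
  classical
  have := Fintype.ofFinite G
  by_contra hcon
  push Not at hcon
  have h1 : ∀ σ : G, ∃ F : X.R, x F ≠ 0 ∧ x1 (hq.autR σ.2 F) = 0 := by
    intro σ
    obtain ⟨f, f', hff, hne⟩ := hcon σ.1 σ.2
    have hf' : f' = hq.autR σ.2 f := Subtype.ext hff
    refine ⟨f - algebraMap ℂ X.R (x1 f'), ?_, ?_⟩
    · rw [map_sub, AlgHom.commutes]
      exact sub_ne_zero.2 hne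
    · rw [map_sub, map_sub, AlgHom.commutes, AlgHom.commutes, ← hf']
      exact sub_self _
  choose F hF hF1 using h1
  obtain ⟨q, hq0, hqP⟩ := hq.descent (F := ∏ σ : G, F σ) hx (by
    rw [map_prod]
    exact Finset.prod_ne_zero_iff.2 fun σ _ => hF σ)
  obtain ⟨σ, hσ, h2⟩ := hqP z x1 hx1 hq0
  apply h2
  rw [map_prod, map_prod]
  exact Finset.prod_eq_zero (Finset.mem_univ (⟨σ, hσ⟩ : G)) (hF1 ⟨σ, hσ⟩)

/-- the stabilizer -/
def IsQuot.stab (hq : IsQuot EZ E G) (x : Pt X) : Subgroup (K ≃ₐ[ℂ] K) where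
  carrier := {σ | σ ∈ G ∧ FixesPt x σ}
  mul_mem' := by
    rintro σ τ ⟨hσ, h1⟩ ⟨hτ, h2⟩
    refine ⟨G.mul_mem hσ hτ, fun f f' hff => ?_⟩
    rw [AlgEquiv.mul_apply] at hff
    exact (h2 f ⟨τ f, (hq.aut τ hτ f).2 f.2⟩ rfl).trans (h1 _ f' hff)
  one_mem' := ⟨G.one_mem, fun f f' hff => by
    rw [AlgEquiv.one_apply] at hff
    rw [Subtype.ext hff]⟩
  inv_mem' := by
    rintro σ ⟨hσ, h1⟩
    refine ⟨G.inv_mem hσ, fun f f' hff => ?_⟩
    refine (h1 f' f ?_).symm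
    rw [hff, ← AlgEquiv.mul_apply, mul_inv_cancel, AlgEquiv.one_apply]

theorem quot_acc_mem (hq : IsQuot EZ E G) [Finite G] {z : Pt Z} {x : Pt X} (hxz : LiesOver x z)
    {m : ℝ} (hm : Pool.Agent.W497.Mld.IsMld (EZ z) m) : IsQuotMldX (E x) (hq.stab x) m := by
  have hcard : ∀ v : DVal K, IsOverGerm x v →
      Nat.card {σ : hq.stab x // ∀ f, v.Reg f → v.Pos ((σ : K ≃ₐ[ℂ] K) f - f)} =
        Nat.card (G ⊓ Ig v : Subgroup (K ≃ₐ[ℂ] K)) := by
    intro v hv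
    rw [card_inert]
    have h1 : (hq.stab x ⊓ Ig v : Subgroup (K ≃ₐ[ℂ] K)) = G ⊓ Ig v := by
      ext σ
      constructor
      · rintro ⟨⟨h1, -⟩, h2⟩
        exact ⟨h1, h2⟩
      · rintro ⟨h1, h2⟩
        exact ⟨⟨h1, fixesPt_of_InI hv (mem_Ig.1 h2)⟩, h2⟩
    rw [h1]
  have hset : {a | ∃ (v : DVal K) (b : ℝ), IsOverGerm x v ∧ IsLogDisc (E x) v b ∧
      a = b / Nat.card {σ : hq.stab x // ∀ f, v.Reg f → v.Pos ((σ : K ≃ₐ[ℂ] K) f - f)}} =
      {a | ∃ v, IsOverGerm z v ∧ IsLogDisc (EZ z) v a} := by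
    ext a
    constructor
    · rintro ⟨w, b, hw, hb, rfl⟩
      obtain ⟨v, e, hv, he, h⟩ := hq.down hxz hw
      refine ⟨v, hv, ?_⟩
      rw [hcard w hw, ← hq.ram h, hq.disc hxz hw hv he h]
      have he' : (e : ℝ) ≠ 0 := by exact_mod_cast he.ne'
      rwa [mul_div_cancel₀ _ he']
    · rintro ⟨v, hv, ha⟩
      obtain ⟨x1, w1, e, hx1, hw1, he, h1⟩ := hq.up hv
      obtain ⟨σ, hσ, hxx⟩ := hq.trans hxz hx1
      have hw2 : IsOverGerm x (tw w1 σ) := IsQuot.over_tw' (hq.aut σ hσ) hxx hw1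
      have h2 : ∀ f : K0, f ≠ 0 → (tw w1 σ).ord (algebraMap K0 K f) = e * v.ord f := by
        intro f hf
        change w1.ord (σ (algebraMap K0 K f)) = _
        rw [hq.inv σ hσ, h1 f hf]
      refine ⟨tw w1 σ, e * a, hw2, (hq.disc hxz hw2 hv he h2 a).1 ha, ?_⟩
      rw [hcard _ hw2, ← hq.ram h2]
      have he' : (e : ℝ) ≠ 0 := by exact_mod_cast he.ne'
      rw [mul_div_cancel_left₀ _ he']
  unfold IsQuotMldX
  rw [hset]
  exact hm

/-- the chart as an étale germ -/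
noncomputable def EChart.germ {n : ℕ} {M : Type} [Field M] [Algebra ℂ M]
    [Algebra (MvPolynomial (Fin n) ℂ) M] [IsFractionRing (MvPolynomial (Fin n) ℂ) M]
    [IsScalarTower ℂ (MvPolynomial (Fin n) ℂ) M] {x : Pt X} {σ : K ≃ₐ[ℂ] K}
    (C : EChart n M E x σ) {Γ : Set ℝ} (hC : CoeffIn C.B' Γ) : EtGerm n M Γ (E x) σ where
  g := C.g
  B' := C.B'
  coef := hC
  htor := C.htor
  y := C.hY.im C.u
  e' := C.E' (C.hY.im C.u)
  τ := C.τ
  aut := C.aut
  mono := C.mono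
  ord := fun _ h => C.ord_tau h
  Ω := C.L
  U := C.U
  ρ := C.ρ
  autU := C.autS
  i := IsScalarTower.toAlgHom ℂ K C.L
  j := IsScalarTower.toAlgHom ℂ M C.L
  comX := C.comX
  comY := C.comY
  u := C.u
  fixU := C.fixU
  etX := by
    have h := C.etX C.u
    rw [C.pt] at h
    exact h
  etY := C.etY C.u
  disc := by
    intro w v v' hw hr hr' b
    have h := C.disc C.u w v v' hw hr hr' b
    rw [C.pt] at h
    exact h

/-- The minimal log discrepancies `m ≥ 0` of the pairs `(W ∋ w, B_W)` which are étale locally at the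
closed point `w` the quotient of a toroidal pair of dimension `n`, with coefficients in `Γ`, by a
finite group. -/
def torQuotMlds (n : ℕ) (Γ : Set ℝ) : Set ℝ :=
  {m : ℝ | 0 ≤ m ∧ ∃ (KW : Type) (_ : Field KW) (_ : Algebra ℂ KW) (W : AffVar KW) (BW : EffDiv W)
    (EW : ∀ w : Pt W, LocEq BW w) (w : Pt W), IsTorQuot n Γ EW w ∧
    Pool.Agent.W497.Mld.IsMld (EW w) m}

theorem torQuot_acc (n : ℕ) {Γ : Set ℝ} (hΓ : Pool.Agent.TH165.ACC.IsDCC Γ) :
    Pool.Agent.TH165.ACC.IsACC (torQuotMlds n Γ) := by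
  intro u hu hmem
  refine quot_acc_et (n := n) (K := FractionRing (MvPolynomial (Fin n) ℂ)) hΓ u hu fun k => ?_
  obtain ⟨h0, KW, _, _, W, BW, EW, w, hT, hm⟩ := hmem k
  obtain ⟨K0, K, _, _, _, _, _, _, Z, BZ, EZ, X, B, E, G, z, x, _, hq, hxz, hx, hc⟩ := hT
  have hmz : Pool.Agent.W497.Mld.IsMld (EZ z) (u k) := by
    obtain ⟨L, _, _, _, _, _, _, S, h, h', T, T', hT, hT', ⟨y, rfl, rfl⟩, hag⟩ := hc
    have key : {a | ∃ v, IsOverGerm (h.im y) v ∧ IsLogDisc (EW (h.im y)) v a} =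
        {a | ∃ v, IsOverGerm (h'.im y) v ∧ IsLogDisc (EZ (h'.im y)) v a} := by
      ext a
      exact log_eq up (down dens frac) dens (extd frac) appr chg EW EZ h h' T T' hT hT' y
        (fun w hw => hag y w hw) a
    unfold Pool.Agent.W497.Mld.IsMld at hm ⊢
    rwa [key] at hm
  have hfin : Finite (hq.stab x) :=
    Finite.of_injective (Subgroup.inclusion (show hq.stab x ≤ G from fun σ hσ => hσ.1))
      (Subgroup.inclusion_injective _)
  refine ⟨h0, K, inferInstance, inferInstance, X, B, x, E x, hq.stab x, hfin, ?_, ?_,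
    quot_acc_mem hq hxz hmz⟩
  · rintro σ ⟨hσ, hf⟩ v b
    exact (hq.isAutX hσ).2 x x hf v b
  · rintro σ ⟨hσ, hf⟩
    obtain ⟨C, hC⟩ := hx σ hσ hf
    exact ⟨C.germ hC⟩

end Run7.h530.TQ
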