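import Pool.Agent.Helper81_gap.Cov3
import Pool.Agent.Helper81_gap.Aff
import Pool.Agent.TH969.C8_EXT

/-!
# Canonical divisors in finite extensions
-/

set_option autoImplicit false
set_option linter.unusedSectionVars false

namespace Run7.h530.TQ

open Pool.Agent.H436R3.Fol Pool.Agent.W497.Mld Pool.Agent.Helper81_gap MvPolynomial

section rank

variable {K : Type} [Field K] [Algebra ℂ K]

/-- the values of the derivations -/
def vals {m : ℕ} (x : Fin m → K) : Derivation ℂ K K →ₗ[K] (Fin m → K) where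
  toFun := fun D i => D (x i)
  map_add' := fun _ _ => rfl
  map_smul' := fun _ _ => rfl

theorem finrank_der {d : ℕ} (T : Foliation K d) (hT : T.space = ⊤) :
    Module.finrank K (Derivation ℂ K K) = d ∧ Module.Finite K (Derivation ℂ K K) := by
  have h2 := finrank_span_eq_card T.indep
  have h3 : Submodule.span K (Set.range T.D) = ⊤ := hT
  rw [h3, finrank_top, Fintype.card_fin] at h2
  refine ⟨h2, ⟨?_⟩⟩
  rw [← h3]
  exact Submodule.fg_span (Set.finite_range _)

theorem rank_top {m d : ℕ} {x : Fin m → K} (hx : IsTranscendenceBasis ℂ x) (T : Foliation K d)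
    (hT : T.space = ⊤) : d = m := by
  have hchar : CharZero K := charZero_of_injective_algebraMap (algebraMap ℂ K).injective
  have hinj : Function.Injective (vals x) := fun D D' h =>
    Pool.Agent.R351.der_ext hx fun i => congrFun h i
  have hsurj : Function.Surjective (vals x) := fun f => by
    obtain ⟨D, hD⟩ := Pool.Agent.R351.exists_der_values x hx.1 f
    exact ⟨D, funext hD⟩
  have h1 := LinearEquiv.finrank_eq (LinearEquiv.ofBijective (vals x) ⟨hinj, hsurj⟩)
  rw [Module.finrank_fin_fun, (finrank_der T hT).1] at h1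
  exact h1

theorem trdeg_top {d : ℕ} (T : Foliation K d) (hT : T.space = ⊤) :
    Algebra.trdeg ℂ K = (d : ℕ) := by
  have hchar : CharZero K := charZero_of_injective_algebraMap (algebraMap ℂ K).injective
  obtain ⟨s, hs⟩ := exists_isTranscendenceBasis ℂ K
  have hcard := hs.cardinalMk_eq_trdeg
  have hlt : ¬ ((d + 1 : ℕ) : Cardinal) ≤ Cardinal.mk s := by
    intro hle
    obtain ⟨g⟩ : Nonempty (Fin (d + 1) ↪ s) := by
      rw [← Cardinal.le_def, Cardinal.mk_fin]
      exact hle
    have hg : AlgebraicIndependent ℂ (fun i => ((g i : s) : K)) := hs.1.comp g g.injective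
    have hsurj : Function.Surjective (vals fun i => ((g i : s) : K)) := fun f => by
      obtain ⟨D, hD⟩ := Pool.Agent.R351.exists_der_values _ hg f
      exact ⟨D, funext hD⟩
    obtain ⟨h1, h2⟩ := finrank_der T hT
    have h3 := LinearMap.finrank_le_finrank_of_surjective hsurj
    rw [Module.finrank_fin_fun, h1] at h3
    omega
  rw [not_le] at hlt
  have hfin : Cardinal.mk s < Cardinal.aleph0 := hlt.trans (Cardinal.natCast_lt_aleph0)
  have hf : Finite s := Cardinal.lt_aleph0_iff_finite.1 hfin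
  have := Fintype.ofFinite s
  let eq := Fintype.equivFin s
  have hx : IsTranscendenceBasis ℂ (fun i => ((eq.symm i : s) : K)) :=
    (isTranscendenceBasis_equiv eq.symm (f := fun i : s => (i : K))).2 hs
  have h1 := rank_top hx T hT
  rw [← hcard, Cardinal.mk_fintype, h1]

theorem trdeg_succ {d : ℕ} (T : Foliation K d) (hT : T.space = ⊤) (v : DVal K) :
    ∃ m, d = m + 1 ∧ Algebra.trdeg ℂ K = ((m + 1 : ℕ) : Cardinal) := by
  have h1 := trdeg_top T hT
  cases d with
  | succ m => exact ⟨m, rfl, h1⟩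
  | zero =>
    exfalso
    rw [Nat.cast_zero, trdeg_eq_zero_iff] at h1
    obtain ⟨f, hf, hf1⟩ := v.surj
    have hi : Algebra.IsIntegral ℂ K := ⟨fun f => (h1.isAlgebraic f).isIntegral⟩
    obtain ⟨c, rfl⟩ := (IsAlgClosed.algebraMap_bijective_of_isIntegral (k := ℂ) (K := K)).2 f
    have hc : c ≠ 0 := fun h0 => hf (by rw [h0, map_zero])
    rw [v.const c hc] at hf1
    omega

end rank

section top

variable {K : Type} [Field K] [Algebra ℂ K] {m : ℕ} {X : NormalAffine K}
  (htr : Algebra.trdeg ℂ K = ((m + 1 : ℕ) : Cardinal)) {v : DVal K} (hv : IsDivisorOver X v)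
  {g : K} (hg0 : g ≠ 0) (hg : v.ord g = 1) {u : Fin m → K} (hu : ∀ i, v.Reg (u i))
  (hres : ∀ q : MvPolynomial (Fin m) ℂ, v.Pos (aeval u q) → q = 0)
  (G : Foliation K (m + 1))

include htr hv hg0 hg hu hres

theorem frame_pd : (Matrix.of fun j k => G.D j ((Fin.cons g u : Fin (m + 1) → K) k)).det ≠ 0 ∧
    (∀ i, Preserves v (∑ j,
      (Matrix.of fun j k => G.D j ((Fin.cons g u : Fin (m + 1) → K) k))⁻¹ i j • G.D j)) ∧
    ∀ i k, (∑ j, (Matrix.of fun j k => G.D j ((Fin.cons g u : Fin (m + 1) → K) k))⁻¹ i j •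
      G.D j) ((Fin.cons g u : Fin (m + 1) → K) k) = if i = k then 1 else 0 := by
  classical
  obtain ⟨hJ, -⟩ := can_frame htr hv hg0 hg hu hres G
  set t : Fin (m + 1) → K := Fin.cons g u with ht
  set J : Matrix (Fin (m + 1)) (Fin (m + 1)) K := Matrix.of fun j k => G.D j (t k) with hJdef
  have hunit : IsUnit J.det := isUnit_iff_ne_zero.2 hJ
  have hWJ : J⁻¹ * J = 1 := Matrix.nonsing_inv_mul J hunit
  have hpd : ∀ i k, (∑ j, J⁻¹ i j • G.D j) (t k) = if i = k then 1 else 0 := by
    intro i k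
    have h1 := congrFun (congrFun hWJ i) k
    rw [Matrix.mul_apply, Matrix.one_apply] at h1
    rw [← h1]
    exact der_sum_apply _ _ _ _
  refine ⟨hJ, fun i => ?_, hpd⟩
  obtain ⟨B, hB⟩ := exists_lower X hv (∑ j, J⁻¹ i j • G.D j)
  refine frame_reg htr hg0 hg hu hres hB ?_ fun j => ?_
  · have h1 := hpd i 0
    rw [ht, Fin.cons_zero] at h1
    rw [h1]
    split_ifs
    · exact v.reg_one
    · exact v.reg_zero
  · have h1 := hpd i j.succ
    rw [ht, Fin.cons_succ] at h1
    rw [h1]
    split_ifs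
    · exact v.reg_one
    · exact v.reg_zero

/-- the canonical order from a frame -/
theorem can_eq : IsCanOrd G v
    (-(v.ord (Matrix.of fun j k => G.D j ((Fin.cons g u : Fin (m + 1) → K) k)).det)) := by
  classical
  obtain ⟨hJ, hpres, -⟩ := frame_pd htr hv hg0 hg hu hres G
  set t : Fin (m + 1) → K := Fin.cons g u with ht
  set J : Matrix (Fin (m + 1)) (Fin (m + 1)) K := Matrix.of fun j k => G.D j (t k) with hJdef
  have htr' : ∀ k, v.Reg (t k) := by
    intro k
    refine Fin.cases ?_ (fun i => ?_) k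
    · right
      change 0 ≤ v.ord g
      omega
    · exact hu i
  constructor
  · refine ⟨J⁻¹, ?_, hpres, ?_⟩
    · rw [Matrix.det_nonsing_inv, Ring.inverse_eq_inv']
      exact inv_ne_zero hJ
    · rw [Matrix.det_nonsing_inv, Ring.inverse_eq_inv', v.ord_inv hJ]
  · rintro b ⟨A, hA0, hA, hAb⟩
    have h1 : ∀ i j, v.Reg ((A * J) i j) := by
      intro i k
      have h2 := hA i _ (htr' k)
      rw [der_sum_apply] at h2
      rw [Matrix.mul_apply]
      exact h2
    have h4 : v.Reg (A * J).det := det_mem' v.O _ h1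
    rw [Matrix.det_mul] at h4
    have h5 := v.ord_nonneg (mul_ne_zero hA0 hJ) h4
    rw [v.map_mul _ _ hA0 hJ, hAb] at h5
    linarith

theorem eps_top : eps G v = 1 := by
  classical
  obtain ⟨hJ, hpres, hpd⟩ := frame_pd htr hv hg0 hg hu hres G
  rw [eps, if_neg]
  intro hI
  have h1 := hI (∑ j, (Matrix.of fun j k => G.D j ((Fin.cons g u : Fin (m + 1) → K) k))⁻¹ 0 j •
      G.D j) (Submodule.sum_mem _ fun j _ => Submodule.smul_mem _ _
        (Submodule.subset_span ⟨j, rfl⟩)) (hpres 0) g (Or.inr (by omega))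
  have h2 := hpd 0 0
  rw [Fin.cons_zero, if_pos rfl] at h2
  rw [h2] at h1
  rcases h1 with h1 | h1
  · exact one_ne_zero h1
  · rw [v.ord_one] at h1
    exact lt_irrefl _ h1

end top

theorem exists_can {K : Type} [Field K] [Algebra ℂ K] {m : ℕ} {X : NormalAffine K}
    (htr : Algebra.trdeg ℂ K = ((m + 1 : ℕ) : Cardinal)) {v : DVal K} (hv : IsDivisorOver X v)
    (G : Foliation K (m + 1)) : (∃ b, IsCanOrd G v b) ∧ eps G v = 1 := by
  obtain ⟨g, hg0, hg⟩ := v.surj
  obtain ⟨u, hu, hres⟩ := exists_res_divisor htr hv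
  exact ⟨⟨_, can_eq htr hv hg0 hg hu hres G⟩, eps_top htr hv hg0 hg hu hres G⟩

/-- the formula of Hurwitz -/
theorem hurwitz {K L : Type} [Field K] [Algebra ℂ K] [Field L] [Algebra ℂ L] [Algebra K L]
    [IsScalarTower ℂ K L] [Algebra.IsAlgebraic K L] {m : ℕ} {X : NormalAffine K}
    {Y : NormalAffine L} (htr : Algebra.trdeg ℂ K = ((m + 1 : ℕ) : Cardinal))
    {G : Foliation K (m + 1)} {G' : Foliation L (m + 1)}
    (hG : ∀ i, ∀ f : K, G'.D i (algebraMap K L f) = algebraMap K L (G.D i f)) {w : DVal L}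
    {v : DVal K} {e : ℕ} (he : 0 < e)
    (h : ∀ f : K, f ≠ 0 → w.ord (algebraMap K L f) = e * v.ord f) (hv : IsDivisorOver X v)
    (hw : IsDivisorOver Y w) {b b' : ℤ} (hb : IsCanOrd G v b) (hb' : IsCanOrd G' w b') :
    b' + 1 = e * (b + 1) := by
  classical
  obtain ⟨g, hg0, hg⟩ := v.surj
  obtain ⟨u, hu, hres⟩ := exists_res_divisor htr hv
  obtain ⟨hJ, hpres, hpd⟩ := frame_pd htr hv hg0 hg hu hres G
  have hbe := can_unique hb (can_eq htr hv hg0 hg hu hres G)
  have hepsw := (exists_can (X := Y) (by rw [trdeg_ext (K := K), htr]) hw G').2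
  set t : Fin (m + 1) → K := Fin.cons g u with ht
  set J : Matrix (Fin (m + 1)) (Fin (m + 1)) K := Matrix.of fun j k => G.D j (t k) with hJdef
  have hu0 : ∀ i, u i ≠ 0 ∧ v.ord (u i) = 0 := by
    intro i
    have h1 : ¬ v.Pos (u i) := fun h1 => by
      have h2 := hres (MvPolynomial.X i) (by rw [aeval_X]; exact h1)
      exact MvPolynomial.X_ne_zero _ h2
    have h2 : u i ≠ 0 := fun h0 => h1 (Or.inl h0)
    have h3 := (hu i).resolve_left h2
    exact ⟨h2, by
      by_contra h4
      exact h1 (Or.inr (by omega))⟩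
  have ht0 : ∀ k, t k ≠ 0 := by
    intro k
    refine Fin.cases ?_ (fun i => ?_) k
    · exact hg0
    · exact (hu0 i).1
  -- the matrix of the Jacobian above
  have hmap : (Matrix.of fun j k => G'.D j (algebraMap K L (t k))) = J.map (algebraMap K L) := by
    ext j k
    rw [Matrix.of_apply, hG, Matrix.map_apply]
    rfl
  have hdet : (J.map (algebraMap K L)).det = algebraMap K L J.det := by
    rw [← RingHom.mapMatrix_apply, ← RingHom.map_det]
  -- the lower bound
  have hlow := can_add_eps_ge G' hb' (fun k => algebraMap K L (t k)) (fun k => am_ne (ht0 k)) (by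
    rw [hmap, hdet]
    exact am_ne hJ)
  rw [hmap, hdet, h _ hJ, hepsw] at hlow
  have hsum : ∑ k, w.ord (algebraMap K L (t k)) = e := by
    rw [Fin.sum_univ_succ]
    have h1 : w.ord (algebraMap K L (t 0)) = e := by
      change w.ord (algebraMap K L g) = e
      rw [h g hg0, hg, mul_one]
    have h2 : ∀ i : Fin m, w.ord (algebraMap K L (t i.succ)) = 0 := by
      intro i
      change w.ord (algebraMap K L (u i)) = 0
      rw [h _ (hu0 i).1, (hu0 i).2, mul_zero]
    rw [h1, Finset.sum_congr rfl fun i _ => h2 i, Finset.sum_const_zero, add_zero]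
  rw [hsum] at hlow
  have hlow' : (e : ℤ) ≤ b' + 1 + e * v.ord J.det := by exact_mod_cast hlow
  -- the upper bound
  let c : Fin (m + 1) → K := Fin.cons g (fun _ => 1)
  have hc0 : ∀ i, c i ≠ 0 := by
    intro i
    refine Fin.cases ?_ (fun i => ?_) i
    · exact hg0
    · exact one_ne_zero
  have hlog : ∀ i, Raises v (c i • ∑ j, J⁻¹ i j • G.D j) 0 := by
    intro i
    obtain ⟨B, hB⟩ := exists_lower X hv (c i • ∑ j, J⁻¹ i j • G.D j)
    refine frame_log htr hg0 (by omega) hu hres hB ?_ fun j => ?_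
    · have h1 := hpd i 0
      rw [ht, Fin.cons_zero] at h1
      rw [Derivation.smul_apply, h1, smul_eq_mul]
      split_ifs with h2
      · rw [h2, mul_one]
        change v.Reg (g / g)
        rw [div_self hg0]
        exact v.reg_one
      · rw [mul_zero, zero_div]
        exact v.reg_zero
    · have h1 := hpd i j.succ
      rw [ht, Fin.cons_succ] at h1
      rw [Derivation.smul_apply, h1, smul_eq_mul]
      split_ifs with h2
      · rw [h2, mul_one]
        exact v.reg_one
      · rw [mul_zero]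
        exact v.reg_zero
  have hW : (J⁻¹).det ≠ 0 := by
    rw [Matrix.det_nonsing_inv, Ring.inverse_eq_inv']
    exact inv_ne_zero hJ
  have hcd : (Matrix.diagonal c).det = g := by
    rw [Matrix.det_diagonal, Fin.prod_univ_succ]
    change g * ∏ i : Fin m, (1 : K) = g
    rw [Finset.prod_const_one, mul_one]
  set A : Matrix (Fin (m + 1)) (Fin (m + 1)) K := Matrix.diagonal c * J⁻¹ with hAd
  have hAdet : A.det ≠ 0 := by
    rw [hAd, Matrix.det_mul, hcd]
    exact mul_ne_zero hg0 hW
  have hAo : v.ord A.det = 1 + b := by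
    rw [hAd, Matrix.det_mul, hcd, v.map_mul _ _ hg0 hW, hg, Matrix.det_nonsing_inv,
      Ring.inverse_eq_inv', v.ord_inv hJ, hbe]
  have hdetA : (A.map (algebraMap K L)).det = algebraMap K L A.det := by
    rw [← RingHom.mapMatrix_apply, ← RingHom.map_det]
  have hup := can_add_eps_le G' hb' (A.map (algebraMap K L)) (by
    rw [hdetA]
    exact am_ne hAdet) (fun i => by
    obtain ⟨B, hB⟩ := exists_lower Y hw (∑ j, (A.map (algebraMap K L)) i j • G'.D j)
    have h1 := raises_above (D := c i • ∑ j, J⁻¹ i j • G.D j)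
      (D' := ∑ j, (A.map (algebraMap K L)) i j • G'.D j) (fun f => by
        rw [der_sum_apply, Derivation.smul_apply, der_sum_apply, smul_eq_mul, map_mul, map_sum,
          Finset.mul_sum]
        refine Finset.sum_congr rfl fun j _ => ?_
        rw [hG, Matrix.map_apply, hAd, Matrix.diagonal_mul, map_mul, map_mul]
        ring) he h (hlog i) hB
    rwa [mul_zero] at h1)
  rw [hdetA, h _ hAdet, hAo, hepsw] at hup
  have hup' : b' + 1 ≤ e * (1 + b) := by exact_mod_cast hup
  rw [hbe] at hup' ⊢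
  linarith

end Run7.h530.TQ
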