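import Pool.Agent.Run7.h530.TQ.Defs
import Pool.Agent.Run7.h530.TQ.Delta

/-!
# Lower semicontinuity for quotients of toroidal pairs
-/

set_option autoImplicit false
set_option linter.unusedSectionVars false

namespace Run7.h530.TQ

open Pool.Agent.H436R3.Fol Pool.Agent.H436R3.KT Pool.Agent.W497.Mld Pool.Agent.Helper58K9.ET
open Q47.QM Q47.TV Pool.Agent.TH165.ACC

variable {n : ℕ} {M : Type} [Field M] [Algebra ℂ M]
  [Algebra (MvPolynomial (Fin n) ℂ) M] [IsFractionRing (MvPolynomial (Fin n) ℂ) M]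
  [IsScalarTower ℂ (MvPolynomial (Fin n) ℂ) M]

variable {K : Type} [Field K] [Algebra ℂ K] {X : AffVar K} {B : EffDiv X}
  {E : ∀ x : Pt X, LocEq B x} {x : Pt X} {σ : K ≃ₐ[ℂ] K}

namespace EChart

variable (C : EChart n M E x σ)

/-- the étale variety of the chart -/
noncomputable def U : AffVar C.L := toAff C.hX C.T C.hT

theorem etX (u : C.S →ₐ[ℂ] ℂ) :
    IsEtale (IsScalarTower.toAlgHom ℂ K C.L) (C.hX.im u) (U := C.U) u :=
  isEtale (U := C.U) C.hX u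

theorem etY (u : C.S →ₐ[ℂ] ℂ) :
    IsEtale (IsScalarTower.toAlgHom ℂ M C.L) (C.hY.im u) (U := C.U) u :=
  isEtale (U := C.U) C.hY u

theorem disc (u : C.S →ₐ[ℂ] ℂ) (w : DVal C.L) (v : DVal K) (v' : DVal M)
    (hw : OverPt C.S u w) (hr : Restr (IsScalarTower.toAlgHom ℂ K C.L) w v)
    (hr' : Restr (IsScalarTower.toAlgHom ℂ M C.L) w v') (b : ℝ) :
    IsLogDisc (E (C.hX.im u)) v b ↔ IsLogDisc (C.E' (C.hY.im u)) v' b := by
  have e1 : ordE (E (C.hX.im u)) w =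
      ∑ k, (E (C.hX.im u)).ρ k * (v.ord ((E (C.hX.im u)).g k) : ℝ) := by
    unfold ordE
    exact Finset.sum_congr rfl fun k _ => by rw [hr]; rfl
  have e2 : ordE (C.E' (C.hY.im u)) w =
      ∑ k, (C.E' (C.hY.im u)).ρ k * (v'.ord ((C.E' (C.hY.im u)).g k) : ℝ) := by
    unfold ordE
    exact Finset.sum_congr rfl fun k _ => by rw [hr']; rfl
  constructor
  · rintro ⟨k, hk, hb⟩
    have h1 := (can dens (extd frac) appr C.hX u w v hw (fun f _ => (hr f).symm) C.T C.hT k).1 hk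
    obtain ⟨k', hk'⟩ := chg C.T C.T' C.hT.top C.hT'.top w k h1
    refine ⟨k', (can dens (extd frac) appr C.hY u w v' hw (fun f _ => (hr' f).symm) C.T' C.hT'
      k').2 hk', ?_⟩
    have h2 := C.agree u w hw k k' h1 hk'
    rw [e1, e2] at h2
    rw [hb]
    linarith
  · rintro ⟨k', hk', hb⟩
    have h1 := (can dens (extd frac) appr C.hY u w v' hw (fun f _ => (hr' f).symm) C.T' C.hT'
      k').1 hk'
    obtain ⟨k, hk⟩ := chg C.T' C.T C.hT'.top C.hT.top w k' h1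
    refine ⟨k, (can dens (extd frac) appr C.hX u w v hw (fun f _ => (hr f).symm) C.T C.hT
      k).2 hk, ?_⟩
    have h2 := C.agree u w hw k k' hk h1
    rw [e1, e2] at h2
    rw [hb]
    linarith

theorem forward {u : C.S →ₐ[ℂ] ℂ} (hu : FixU u C.ρ) {v : DVal K}
    (hv : IsOverGerm (C.hX.im u) v) {b : ℝ} (hb : IsLogDisc (E (C.hX.im u)) v b) {z : ℂ}
    (hI : InI v σ) (hch : Ch v σ z) :
    ∃ v' : DVal M, IsOverGerm (C.hY.im u) v' ∧ IsLogDisc (C.E' (C.hY.im u)) v' b ∧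
      InI v' C.τ ∧ Ch v' C.τ z := by
  obtain ⟨w, v', hw, hwv, hv', hwv', hI', hch'⟩ :=
    transfer (C.etX u) (C.etY u) C.comX C.comY C.autS hu hv hI hch
  exact ⟨v', hv', (C.disc u w v v' hw hwv hwv' b).1 hb, hI', hch'⟩

theorem back {u : C.S →ₐ[ℂ] ℂ} (hu : FixU u C.ρ) {v' : DVal M}
    (hv' : IsOverGerm (C.hY.im u) v') {b : ℝ} (hb : IsLogDisc (C.E' (C.hY.im u)) v' b) {z : ℂ}
    (k : ℕ) (hI : InI v' (C.τ ^ k)) (hch : Ch v' (C.τ ^ k) z) :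
    ∃ v : DVal K, IsOverGerm (C.hX.im u) v ∧ IsLogDisc (E (C.hX.im u)) v b ∧
      InI v (σ ^ k) ∧ Ch v (σ ^ k) z := by
  obtain ⟨w, v, hw, hwv', hv, hwv, hI', hch'⟩ :=
    transfer (C.etY u) (C.etX u)
      (com_pow (i := IsScalarTower.toAlgHom ℂ M C.L) C.comY k)
      (com_pow (i := IsScalarTower.toAlgHom ℂ K C.L) C.comX k)
      (aut_pow (U := C.U) C.autS k) (fix_pow (U := C.U) C.autS hu k) hv' hI hch
  exact ⟨v, hv, (C.disc u w v v' hw hwv hwv' b).2 hb, hI', hch'⟩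

theorem fix_im {u : C.S →ₐ[ℂ] ℂ} (hu : FixU u C.ρ) : FixesPt (C.hX.im u) σ := by
  intro f f' hff
  exact hu (C.hX.inc f) (C.hX.inc f') (by
    change algebraMap K C.L f' = C.ρ (algebraMap K C.L f)
    rw [C.comX, hff])

theorem at_fix (hσ : IsAutX E σ) {u : C.S →ₐ[ℂ] ℂ} (hu : FixU u C.ρ) (v' : DVal M) (b : ℝ)
    (hov : IsOverGerm (C.hY.im u) v') (hb : IsLogDisc (C.E' (C.hY.im u)) v' b) :
    IsOverGerm (C.hY.im u) (tw v' C.τ) ∧ IsLogDisc (C.E' (C.hY.im u)) (tw v' C.τ) b :=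
  at_fix_et (C.etX u) (C.etY u) (fun w v v' hw hr hr' b => C.disc u w v v' hw hr hr' b)
    C.comX C.comY C.autS hu (fun v b => hσ.2 (C.hX.im u) (C.hX.im u) (C.fix_im hu) v b)
    v' b hov hb

theorem ord_tau {N : ℕ} (hN : σ ^ N = 1) : C.τ ^ N = 1 := by
  have h0 := com_pow (i := IsScalarTower.toAlgHom ℂ K C.L) C.comX N
  have h1 : C.ρ ^ N = 1 := ord_one C.hX (aut_pow (U := C.U) C.autS N) (fun f => by
      have h2 := h0 f
      rw [hN] at h2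
      exact h2) C.u (fix_pow (U := C.U) C.autS C.fixU N)
  refine AlgEquiv.ext fun f => ?_
  have h2 := com_pow (i := IsScalarTower.toAlgHom ℂ M C.L) C.comY N f
  rw [h1] at h2
  exact (algebraMap M C.L).injective h2.symm

end EChart

theorem zp_pow {G : Type} [Group G] {τ : G} {N : ℕ} (hN : 0 < N) (h : τ ^ N = 1) {a : G}
    (ha : a ∈ Subgroup.zpowers τ) : ∃ k : ℕ, a = τ ^ k := by
  obtain ⟨z, rfl⟩ := Subgroup.mem_zpowers_iff.1 ha
  refine ⟨(z % N).toNat, ?_⟩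
  have h1 : 0 ≤ z % N := Int.emod_nonneg _ (by omega)
  rw [← zpow_natCast, Int.toNat_of_nonneg h1]
  conv_lhs => rw [← Int.emod_add_mul_ediv z N]
  rw [zpow_add, zpow_mul, zpow_natCast, h, one_zpow, mul_one]

theorem zp_finite {G : Type} [Group G] {τ : G} {N : ℕ} (hN : 0 < N) (h : τ ^ N = 1) :
    Finite (Subgroup.zpowers τ) := by
  have h1 : IsOfFinOrder τ := isOfFinOrder_iff_pow_eq_one.2 ⟨N, hN, h⟩
  exact h1.finite_zpowers

theorem lsc_et (G : Subgroup (K ≃ₐ[ℂ] K)) [Finite G] (hG : ∀ σ ∈ G, IsAutX E σ) (x : Pt X)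
    (hx : ∀ σ ∈ G, FixesPt x σ → Nonempty (EChart n M E x σ)) :
    NX x fun x' => ∀ m : ℝ, 0 ≤ m →
      (∀ v b, IsOverGerm x v → IsLogDisc (E x) v b →
        m ≤ b / Nat.card (G ⊓ Ig v : Subgroup (K ≃ₐ[ℂ] K))) →
      ∀ v b, IsOverGerm x' v → IsLogDisc (E x') v b →
        m ≤ b / Nat.card (G ⊓ Ig v : Subgroup (K ≃ₐ[ℂ] K)) := by
  classical
  obtain ⟨R, hR, hRW⟩ := exists_R n
  have hc : 0 < Nat.card G := Nat.card_pos
  have hpow : ∀ σ ∈ G, σ ^ Nat.card G = 1 := by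
    intro σ hσ
    have h1 : (⟨σ, hσ⟩ : G) ^ Nat.card G = 1 := pow_card_eq_one'
    have h2 : (((⟨σ, hσ⟩ : G) ^ Nat.card G : G) : K ≃ₐ[ℂ] K) = 1 := by rw [h1]; rfl
    rw [Subgroup.coe_pow] at h2
    exact h2
  have hmain : ∀ σ : G, NX x fun x' => (FixesPt x' σ.1 → FixesPt x σ.1) ∧
      ∀ _ : FixesPt x σ.1, ∃ (C : EChart n M E x σ.1) (W : (Fin n → ℤ) →+ (Fin n → ℤ))
        (l : (Fin n → ℤ) → ℂ) (u' : C.S →ₐ[ℂ] ℂ), Mo C.τ W l ∧ C.hX.im u' = x' ∧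
        (FixesPt x' σ.1 → FixU u' C.ρ) ∧
        (∀ m ∈ Fx (C.hY.im C.u), m ∈ Fx (C.hY.im u')) ∧
        (Fixes (C.hY.im u') W l → Fixes (C.hY.im C.u) W l ∧
          ∀ m1 ∈ Fx (C.hY.im C.u), ∀ m2 ∈ Fx (C.hY.im C.u), ∀ m', W m' - m' = m1 - m2 →
            yx (C.hY.im u') m1 * yx (C.hY.im C.u) m2 =
              yx (C.hY.im u') m2 * yx (C.hY.im C.u) m1) := by
    intro σ
    refine (nx_fix x σ.1).and ?_
    by_cases hf : FixesPt x σ.1
    · obtain ⟨C⟩ := hx σ.1 σ.2 hf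
      obtain ⟨W, l, hmo⟩ := exists_mo C.mono
      have hit : ∀ m, W^[Nat.card G] m = m := hmo.iter_eq (C.ord_tau (hpow σ.1 σ.2))
      obtain ⟨q, hq, hqP⟩ := nb_main (l := l) hmo.1 (cone_aut hmo C.aut) hR
        (hRW W _ hc hit) (C.hY.im C.u)
      obtain ⟨δ, hδ, hδP⟩ := fixed_nbhd C.hX C.autS (hG σ.1 σ.2).1 C.comX C.u C.fixU
      obtain ⟨F, hF, hFP⟩ := opn C.hX C.u (C.hY.inc q * δ) (by
        rw [map_mul]
        exact mul_ne_zero hq hδ)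
      refine ⟨F, by rw [← C.pt]; exact hF, fun x' hx' _ => ?_⟩
      obtain ⟨u', hu', hqδ⟩ := hFP x' hx'
      rw [map_mul] at hqδ
      have h1 := hqP (C.hY.im u') (left_ne_zero_of_mul hqδ)
      exact ⟨C, W, l, u', hmo, hu', fun hfx => hδP u' (right_ne_zero_of_mul hqδ)
        (by rw [hu']; exact hfx), h1.1, h1.2⟩
    · exact NX.all fun _ h => absurd h hf
  refine (NX.finite hmain).mono ?_
  intro x' hx' m hm0 hm v b hov hb
  obtain ⟨hr, σ, hσG, hI, hσr, hch⟩ := exists_gen G v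
  rw [ee_root] at hch
  obtain ⟨h1, h2⟩ := hx' ⟨σ, hσG⟩
  have hfx' := fixesPt_of_InI hov hI
  have hfx := h1 hfx'
  obtain ⟨C, W, l, u', hmo, rfl, hfu, hxx, hfix0⟩ := h2 hfx
  have hu' : FixU u' C.ρ := hfu hfx'
  obtain ⟨v', hov', hb', hI', hch'⟩ := C.forward hu' hov hb hI hch
  rcases Nat.eq_zero_or_pos n with hn | hn
  · subst hn
    exact (no_dval v').elim
  have hit : ∀ m, W^[Nat.card G] m = m := hmo.iter_eq (C.ord_tau (hpow σ hσG))
  have hcone := cone_aut hmo C.aut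
  have hfix' : Fixes (C.hY.im u') W l := fixes_of_InI hmo hcone hov' hI'
  obtain ⟨hfix, hchar⟩ := hfix0 hfix'
  have hτN : C.τ ^ Nat.card G = 1 := C.ord_tau (hpow σ hσG)
  have hfinite : Finite (Subgroup.zpowers C.τ) := zp_finite hc hτN
  choose vE hvE htE using fun i => exists_mon (K := M) (C.g.prim i)
  obtain ⟨Φ, hΦ⟩ := exists_phi3 hvE htE C.htor (C.E' (C.hY.im C.u))
  refine lsc_one (G := Subgroup.zpowers C.τ) hR hn hvE htE (fun i => mult_nonneg C.B' (vE i))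
    C.htor hΦ (C.E' (C.hY.im C.u)) (C.E' (C.hY.im u')) hov' hb' hr
    (Subgroup.mem_zpowers C.τ) hI' (C.ord_tau hσr) hch'
    hmo (hRW W _ hc hit) hcone (fun u hu => phi_inv hvE htE C.htor hΦ
      (C.E' (C.hY.im C.u)) hn hmo (C.at_fix (hG σ hσG) C.fixU) hcone hfix hc hit hu)
    hxx hfix hchar hm0 ?_
  intro v1 b1 hov1 hb1
  obtain ⟨hk, τ', hτ', hI1, hτk, hch1⟩ := exists_gen (Subgroup.zpowers C.τ) v1
  rw [ee_root] at hch1
  obtain ⟨j, rfl⟩ := zp_pow hc hτN hτ'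
  obtain ⟨v2, hov2, hb2, hI2, hch2⟩ := C.back C.fixU hov1 hb1 j hI1 hch1
  rw [C.pt] at hov2 hb2
  obtain ⟨hs0, -⟩ := exists_gen G v2
  have hmle := hm v2 b1 hov2 hb2
  set s := Nat.card (G ⊓ Ig v2 : Subgroup (K ≃ₐ[ℂ] K)) with hs
  set k := Nat.card (Subgroup.zpowers C.τ ⊓ Ig v1 : Subgroup (M ≃ₐ[ℂ] M)) with hkd
  have hprim : IsPrimitiveRoot (ee (1 / k)) k := by
    rw [← ee_root]; exact Complex.isPrimitiveRoot_exp k hk.ne'
  have hpw : (σ ^ j) ^ s = 1 := by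
    have h1 : σ ^ j ∈ (G ⊓ Ig v2 : Subgroup (K ≃ₐ[ℂ] K)) :=
      ⟨Subgroup.pow_mem _ hσG _, mem_Ig.2 hI2⟩
    have h2 : (⟨σ ^ j, h1⟩ : (G ⊓ Ig v2 : Subgroup (K ≃ₐ[ℂ] K))) ^ s = 1 :=
      pow_card_eq_one'
    have h3 := congrArg Subtype.val h2
    simpa using h3
  have hdvd : k ∣ s := by
    have h1 := Ch.pow' hI2 hch2 s
    rw [hpw] at h1
    have h2 := h1.uniq Ch.one
    exact (hprim.pow_eq_one_iff_dvd _).1 h2
  have hle : k ≤ s := Nat.le_of_dvd hs0 hdvd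
  have hs0' : (0 : ℝ) < s := by exact_mod_cast hs0
  have hk0' : (0 : ℝ) < k := by exact_mod_cast hk
  have hle' : (k : ℝ) ≤ s := by exact_mod_cast hle
  rw [le_div_iff₀ hs0'] at hmle
  rw [le_div_iff₀ hk0']
  exact (mul_le_mul_of_nonneg_left hle' hm0).trans hmle

/-- lower semicontinuity of the minimal log discrepancy of the quotient -/
theorem lsc_quot (G : Subgroup (K ≃ₐ[ℂ] K)) [Finite G] (hG : ∀ σ ∈ G, IsAutX E σ) (x : Pt X)
    (hx : ∀ σ ∈ G, FixesPt x σ → Nonempty (EChart n M E x σ)) :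
    ∃ f : X.R, x f ≠ 0 ∧ ∀ x' : Pt X, x' f ≠ 0 → quotMld E G x ≤ quotMld E G x' := by
  refine (lsc_et G hG x hx).mono ?_
  intro x' key
  rw [quotMld]
  split_ifs with h1
  · exact bot_le
  push Not at h1
  set i := sInf {a : EReal | ∃ (v : DVal K) (b : ℝ), IsOverGerm x v ∧ IsLogDisc (E x) v b ∧
    a = ((b / Nat.card {σ : G // ∀ f, v.Reg f → v.Pos ((σ : K ≃ₐ[ℂ] K) f - f)} : ℝ) : EReal)}
    with hi
  have hval : ∀ v b, IsOverGerm x v → IsLogDisc (E x) v b →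
      i ≤ ((b / Nat.card (G ⊓ Ig v : Subgroup (K ≃ₐ[ℂ] K)) : ℝ) : EReal) := by
    intro v b hv hb
    rw [← card_inert]
    exact sInf_le ⟨v, b, hv, hb, rfl⟩
  have hle : i ≤ sInf {a : EReal | ∃ (v : DVal K) (b : ℝ), IsOverGerm x' v ∧
      IsLogDisc (E x') v b ∧
      a = ((b / Nat.card {σ : G // ∀ f, v.Reg f → v.Pos ((σ : K ≃ₐ[ℂ] K) f - f)} : ℝ) :
        EReal)} := by
    refine le_sInf ?_
    rintro _ ⟨v, b, hv, hb, rfl⟩
    rw [card_inert, ← EReal.ge_of_forall_gt_iff_ge]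
    intro z hz
    rcases le_total 0 z with h0 | h0
    · have h2 := key z h0 (fun v b hv hb => by
        have h3 := hz.le.trans (hval v b hv hb)
        exact_mod_cast h3) v b hv hb
      exact_mod_cast h2
    · have h2 := key 0 le_rfl (fun v b hv hb => by
        have h3 := h1.trans (hval v b hv hb)
        exact_mod_cast h3) v b hv hb
      have h3 : z ≤ b / Nat.card (G ⊓ Ig v : Subgroup (K ≃ₐ[ℂ] K)) := h0.trans h2
      exact_mod_cast h3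
  rw [quotMld, if_neg (not_lt.2 (h1.trans hle))]
  exact hle

end Run7.h530.TQ
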