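import Pool.Agent.Q47.QM.Disc
import Pool.Agent.Helper58K9.ET.Dens
import Pool.Agent.Helper81_gap.Basic

/-!
# Weak approximation and the order of the inertia group
-/

set_option autoImplicit false
set_option linter.unusedSectionVars false

namespace Run7.h530.TQ

open Pool.Agent.H436R3.Fol Pool.Agent.H436R3.KT Pool.Agent.W497.Mld Pool.Agent.Helper58K9.ET
open Q47.QM

variable {K : Type} [Field K] [Algebra ℂ K]

/-- the absolute value of a discrete valuation -/
noncomputable def av (v : DVal K) : AbsoluteValue K ℝ := by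
  classical
  exact
  { toFun := fun f => if f = 0 then 0 else (2 : ℝ) ^ (-v.ord f)
    map_mul' := fun f g => by
      by_cases hf : f = 0
      · simp [hf]
      by_cases hg : g = 0
      · simp [hg]
      rw [if_neg hf, if_neg hg, if_neg (mul_ne_zero hf hg), v.map_mul f g hf hg,
        ← zpow_add₀ two_ne_zero]
      congr 1
      ring
    nonneg' := fun f => by
      split_ifs
      · exact le_rfl
      · positivity
    eq_zero' := fun f => by
      constructor
      · intro h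
        by_contra hf
        rw [if_neg hf] at h
        exact (zpow_ne_zero _ two_ne_zero) h
      · rintro rfl
        simp
    add_le' := fun f g => by
      by_cases hf : f = 0
      · simp [hf]
      by_cases hg : g = 0
      · simp [hg]
      rw [if_neg hf, if_neg hg]
      by_cases h : f + g = 0
      · rw [if_pos h]
        positivity
      rw [if_neg h]
      have h1 := v.map_add f g hf hg h
      have h3 : (0 : ℝ) ≤ 2 ^ (-v.ord f) := by positivity
      have h4 : (0 : ℝ) ≤ 2 ^ (-v.ord g) := by positivity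
      rcases min_le_iff.1 h1 with h2 | h2
      · have h5 : (2 : ℝ) ^ (-v.ord (f + g)) ≤ 2 ^ (-v.ord f) :=
          zpow_le_zpow_right₀ one_le_two (by omega)
        linarith
      · have h5 : (2 : ℝ) ^ (-v.ord (f + g)) ≤ 2 ^ (-v.ord g) :=
          zpow_le_zpow_right₀ one_le_two (by omega)
        linarith }

theorem av_ne {v : DVal K} {f : K} (hf : f ≠ 0) : av v f = (2 : ℝ) ^ (-v.ord f) := by
  classical
  exact if_neg hf

theorem av_le {v : DVal K} {f g : K} (hf : f ≠ 0) (hg : g ≠ 0) :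
    av v f ≤ av v g ↔ v.ord g ≤ v.ord f := by
  rw [av_ne hf, av_ne hg, zpow_le_zpow_iff_right₀ one_lt_two]
  omega

theorem same_of_equiv {v w : DVal K} (h : (av v).IsEquiv (av w)) : SameDiv v w := by
  have hle : ∀ f g : K, f ≠ 0 → g ≠ 0 → (v.ord g ≤ v.ord f ↔ w.ord g ≤ w.ord f) := by
    intro f g hf hg
    rw [← av_le hf hg, ← av_le hf hg]
    exact h f g
  obtain ⟨π, hπ, hπ1⟩ := v.surj
  have key : ∀ f : K, f ≠ 0 → w.ord f = v.ord f * w.ord π := by
    intro f hf
    have hz := zpow_ne_zero (v.ord f) hπ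
    have h1 : v.ord (π ^ v.ord f) = v.ord f := by rw [v.ord_zpow hπ, hπ1, mul_one]
    have h2 := (hle f _ hf hz).1 h1.le
    have h3 := (hle _ f hz hf).1 h1.ge
    rw [w.ord_zpow hπ] at h2 h3
    omega
  obtain ⟨f1, hf1, h1⟩ := w.surj
  have h2 := key f1 hf1
  rw [h1] at h2
  have h3 := (hle π 1 hπ one_ne_zero).1 (by rw [v.ord_one, hπ1]; omega)
  rw [w.ord_one] at h3
  have h4 : w.ord π = 1 := Int.eq_one_of_dvd_one h3 ⟨_, by rw [mul_comm]; exact h2⟩
  intro f hf
  rw [key f hf, h4, mul_one]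

theorem same_trans {u v w : DVal K} (h : SameDiv u v) (h' : SameDiv v w) : SameDiv u w :=
  fun f hf => (h f hf).trans (h' f hf)

theorem av_congr {v w : DVal K} (h : SameDiv v w) : av v = av w := by
  ext f
  by_cases hf : f = 0
  · rw [hf, map_zero, map_zero]
  · rw [av_ne hf, av_ne hf, h f hf]

theorem av_nontriv (v : DVal K) : (av v).IsNontrivial := by
  obtain ⟨π, hπ, h1⟩ := v.surj
  refine ⟨π, hπ, ?_⟩
  rw [av_ne hπ, h1]
  norm_num

/-- weak approximation -/
theorem exists_eps {ι : Type} [Finite ι] (w : DVal K) (v : ι → DVal K)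
    (h : ∀ i, ¬ SameDiv (v i) w) (N : ℕ) :
    ∃ ε : K, ε ≠ 0 ∧ w.Pos (ε - 1) ∧ ∀ i, (N : ℤ) ≤ (v i).ord ε := by
  classical
  let F : Option ι → AbsoluteValue K ℝ := fun o => o.elim (av w) fun i => av (v i)
  have hF : ∀ o, ∃ u : DVal K, F o = av u := by
    intro o
    cases o with
    | none => exact ⟨w, rfl⟩
    | some i => exact ⟨v i, rfl⟩
  have hfin : Finite (Set.range F) := Set.finite_range F
  obtain ⟨a, ha1, ha2⟩ := AbsoluteValue.exists_one_lt_lt_one_pi_of_not_isEquiv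
    (v := fun a : Set.range F => a.1) (by
      rintro ⟨_, ⟨o, rfl⟩⟩
      obtain ⟨u, hu⟩ := hF o
      change (F o).IsNontrivial
      rw [hu]
      exact av_nontriv u) (by
      rintro ⟨_, ⟨o, rfl⟩⟩ ⟨_, ⟨o', rfl⟩⟩ hne heq
      apply hne
      apply Subtype.ext
      change F o = F o'
      change (F o).IsEquiv (F o') at heq
      obtain ⟨u, hu⟩ := hF o
      obtain ⟨u', hu'⟩ := hF o'
      rw [hu, hu'] at heq ⊢
      exact av_congr (same_of_equiv heq)) ⟨av w, ⟨none, rfl⟩⟩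
  change 1 < av w a at ha1
  have ha0 : a ≠ 0 := by
    rintro rfl
    rw [map_zero] at ha1
    linarith
  have hwa : w.ord a < 0 := by
    rw [av_ne ha0] at ha1
    by_contra hcon
    have h1 : (2 : ℝ) ^ (-w.ord a) ≤ 2 ^ (0 : ℤ) := zpow_le_zpow_right₀ one_le_two (by omega)
    rw [zpow_zero] at h1
    linarith
  have hva : ∀ i, 0 < (v i).ord a := by
    intro i
    have h1 : av (v i) ≠ av w := fun h1 => h i (same_of_equiv (by
      rw [h1]
      exact AbsoluteValue.IsEquiv.refl _))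
    have h2 := ha2 ⟨av (v i), ⟨some i, rfl⟩⟩ fun h3 => h1 (congrArg Subtype.val h3)
    change av (v i) a < 1 at h2
    rw [av_ne ha0] at h2
    by_contra hcon
    have h3 : (2 : ℝ) ^ (0 : ℤ) ≤ 2 ^ (-(v i).ord a) := zpow_le_zpow_right₀ one_le_two (by omega)
    rw [zpow_zero] at h3
    linarith
  set d : K := a ^ (N + 1) with hd
  have hd0 : d ≠ 0 := pow_ne_zero _ ha0
  have hc0 : d⁻¹ ≠ 0 := inv_ne_zero hd0
  have hwc : w.Pos ((1 + d⁻¹) - 1) := by
    right
    have e1 : (1 : K) + d⁻¹ - 1 = d⁻¹ := by ring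
    rw [e1, w.ord_inv hd0, hd, w.ord_pow ha0]
    push_cast
    nlinarith
  obtain ⟨hne, hord⟩ := DensL.one_pos_ne w hwc
  refine ⟨(1 + d⁻¹)⁻¹, inv_ne_zero hne, DensL.one_pos_inv w hwc, fun i => ?_⟩
  have h1 : (v i).Pos ((1 + d) - 1) := by
    right
    have e1 : (1 : K) + d - 1 = d := by ring
    rw [e1, hd, (v i).ord_pow ha0]
    have := hva i
    positivity
  obtain ⟨hne1, hord1⟩ := DensL.one_pos_ne (v i) h1
  have e2 : (1 + d⁻¹)⁻¹ = d * (1 + d)⁻¹ := by
    have e3 : 1 + d⁻¹ = (1 + d) / d := by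
      field_simp
      ring
    rw [e3, inv_div, div_eq_mul_inv]
  rw [e2, (v i).map_mul _ _ hd0 (inv_ne_zero hne1), (v i).ord_inv hne1, hord1, hd,
    (v i).ord_pow ha0]
  have := hva i
  push_cast
  nlinarith

/-- the maximal ideal -/
def mI (w : DVal K) : Ideal w.O where
  carrier := {x | w.Pos (x : K)}
  add_mem' := fun {_ _} ha hb => w.pos_add ha hb
  zero_mem' := Or.inl rfl
  smul_mem' := fun c _ hx => w.pos_mul_left c.2 hx

theorem mI_prime (w : DVal K) : (mI w).IsPrime := by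
  refine Ideal.isPrime_iff.2 ⟨?_, ?_⟩
  · intro h
    have h1 : (1 : w.O) ∈ mI w := by rw [h]; trivial
    exact not_pos one_ne_zero w.ord_one h1
  · intro x y hxy
    exact pos_of_mul x.2 y.2 hxy

theorem sum_pos {ι : Type} {w : DVal K} (s : Finset ι) (g : ι → K) (h : ∀ i ∈ s, w.Pos (g i)) :
    w.Pos (∑ i ∈ s, g i) := Pool.Agent.Helper81_gap.pos_sum' s g h

/-- there is an invariant function whose order is the order of the inertia group -/
theorem exists_inv_ord (G : Subgroup (K ≃ₐ[ℂ] K)) [Finite G] (w : DVal K) :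
    ∃ h : K, h ≠ 0 ∧ (∀ σ ∈ G, σ h = h) ∧
      w.ord h = Nat.card (G ⊓ Ig w : Subgroup (K ≃ₐ[ℂ] K)) := by
  classical
  obtain ⟨hr, -⟩ := exists_gen G w
  set r := Nat.card (G ⊓ Ig w : Subgroup (K ≃ₐ[ℂ] K)) with hrd
  have hfi : Finite (G ⊓ Ig w : Subgroup (K ≃ₐ[ℂ] K)) :=
    Set.Finite.subset (s := (G : Set (K ≃ₐ[ℂ] K))) (Set.toFinite _) fun x hx => hx.1
  have : Fintype G := Fintype.ofFinite G
  obtain ⟨π, hπ, hπ1⟩ := w.surj
  set a : K := π ^ r with ha
  have ha0 : a ≠ 0 := pow_ne_zero _ hπ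
  have hao : w.ord a = r := by rw [ha, w.ord_pow hπ, hπ1, mul_one]
  -- the decomposition group
  let P : G → Prop := fun σ => SameDiv (tw w σ.1) w
  have hreg : ∀ i : {σ : G // P σ}, ∀ f, w.Reg f → w.Reg (i.1.1 f) := by
    intro i f hf
    rw [← tw_reg]
    by_cases h0 : f = 0
    · exact Or.inl h0
    · right
      rw [i.2 f h0]
      exact hf.resolve_left h0
  have hpos : ∀ i : {σ : G // P σ}, ∀ f, w.Pos f → w.Pos (i.1.1 f) := by
    intro i f hf
    rw [← tw_pos]
    by_cases h0 : f = 0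
    · exact Or.inl h0
    · right
      rw [i.2 f h0]
      exact hf.resolve_left h0
  have hpos' : ∀ i : {σ : G // P σ}, ∀ f, w.Pos (i.1.1 f) → w.Pos f := by
    intro i f hf
    rw [← tw_pos] at hf
    by_cases h0 : f = 0
    · exact Or.inl h0
    · right
      rw [← i.2 f h0]
      exact hf.resolve_left h0
  have hu : ∀ i : {σ : G // P σ}, w.Reg (i.1.1 a / a) := by
    intro i
    right
    have h1 := i.2 a ha0
    change w.ord (i.1.1 a) = w.ord a at h1
    rw [w.ord_div (sne _ ha0) ha0, h1, sub_self]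
  have := mI_prime w
  let κ := w.O ⧸ mI w
  let mk : w.O →+* κ := Ideal.Quotient.mk (mI w)
  have hmk : ∀ x : w.O, mk x = 0 ↔ w.Pos (x : K) := fun x => Ideal.Quotient.eq_zero_iff_mem
  let χ : {σ : G // P σ} → (w.O →* κ) := fun i =>
    { toFun := fun x => mk ⟨i.1.1 x, hreg i _ x.2⟩
      map_one' := by
        rw [← map_one mk]
        congr 1
        exact Subtype.ext (map_one _)
      map_mul' := fun x y => by
        rw [← map_mul mk]
        congr 1
        exact Subtype.ext (map_mul _ _ _) }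
  let ub : {σ : G // P σ} → κ := fun i => mk ⟨i.1.1 a / a, hu i⟩
  -- the identity
  have h1P : P 1 := fun f hf => rfl
  let i1 : {σ : G // P σ} := ⟨1, h1P⟩
  have hχ1 : ∀ i, χ i = χ i1 → ub i = 1 := by
    intro i hi
    have hI : InI w i.1.1 := by
      intro f hf
      have h1 := congrArg (fun c : w.O →* κ => c ⟨f, hf⟩) hi
      change mk ⟨i.1.1 f, _⟩ = mk ⟨f, _⟩ at h1
      rw [← sub_eq_zero, ← map_sub, hmk] at h1
      exact h1
    have hmem : i.1.1 ∈ (G ⊓ Ig w : Subgroup (K ≃ₐ[ℂ] K)) := ⟨i.1.2, mem_Ig.2 hI⟩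
    have hpw : i.1.1 ^ r = 1 := by
      have h2 : (⟨i.1.1, hmem⟩ : (G ⊓ Ig w : Subgroup (K ≃ₐ[ℂ] K))) ^ r = 1 := pow_card_eq_one'
      have h3 := congrArg Subtype.val h2
      simpa using h3
    obtain ⟨z, hz, hch⟩ := exists_ch hI hr hpw
    have h2 := (hch.2 a ha0).2
    rw [hao, zpow_natCast, hz, map_one] at h2
    change mk ⟨i.1.1 a / a, hu i⟩ = 1
    rw [← map_one mk, ← sub_eq_zero, ← map_sub, hmk]
    exact h2
  -- a nonzero combination
  obtain ⟨c, hc⟩ : ∃ c : w.O, ∑ i, ub i * χ i c ≠ 0 := by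
    by_contra hcon
    push Not at hcon
    have hli := linearIndependent_monoidHom w.O κ
    rw [linearIndependent_iff'] at hli
    have h1 := hli (Finset.univ.image χ)
      (fun c => ∑ i ∈ Finset.univ.filter (fun i => χ i = c), ub i) (by
        funext x
        rw [Finset.sum_apply, Pi.zero_apply, ← hcon x]
        have h2 := Finset.sum_fiberwise_of_maps_to (s := (Finset.univ : Finset {σ : G // P σ}))
          (t := Finset.univ.image χ) (g := χ) (fun i hi => Finset.mem_image_of_mem χ hi)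
          (fun i => ub i * χ i x)
        rw [← h2]
        refine Finset.sum_congr rfl fun c _ => ?_
        rw [Pi.smul_apply, smul_eq_mul, Finset.sum_mul]
        refine Finset.sum_congr rfl fun i hi => ?_
        rw [(Finset.mem_filter.1 hi).2])
      (χ i1) (Finset.mem_image_of_mem χ (Finset.mem_univ i1))
    rw [Finset.sum_congr rfl fun i hi => hχ1 i (Finset.mem_filter.1 hi).2, Finset.sum_const,
      nsmul_eq_mul, mul_one] at h1
    set k := (Finset.univ.filter fun i => χ i = χ i1).card with hk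
    have hk0 : 0 < k := Finset.card_pos.2 ⟨i1, Finset.mem_filter.2 ⟨Finset.mem_univ _, rfl⟩⟩
    have h2 : mk (k : w.O) = 0 := by rw [map_natCast]; exact h1
    rw [hmk] at h2
    have h3 : ((k : w.O) : K) = algebraMap ℂ K k := by
      rw [map_natCast]
      rfl
    rw [h3] at h2
    have hk' : (k : ℂ) ≠ 0 := by exact_mod_cast hk0.ne'
    exact not_pos (alg_ne hk') (w.const _ hk') h2
  have hc0 : (c : K) ≠ 0 := by
    intro h0
    apply hc
    refine Finset.sum_eq_zero fun i _ => ?_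
    have h1 : χ i c = 0 := by
      change mk ⟨i.1.1 c, _⟩ = 0
      rw [hmk]
      left
      change i.1.1 (c : K) = 0
      rw [h0, map_zero]
    rw [h1, mul_zero]
  -- weak approximation
  obtain ⟨N, hN⟩ : ∃ N : ℕ, ∀ σ : G, (r : ℤ) - w.ord (σ.1 (a * c)) < N := by
    refine ⟨∑ σ : G, ((r : ℤ) - w.ord (σ.1 (a * c))).natAbs + 1, fun σ => ?_⟩
    have h1 : ((r : ℤ) - w.ord (σ.1 (a * c))).natAbs ≤
        ∑ σ : G, ((r : ℤ) - w.ord (σ.1 (a * c))).natAbs :=
      Finset.single_le_sum (f := fun σ : G => ((r : ℤ) - w.ord (σ.1 (a * c))).natAbs)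
        (fun _ _ => Nat.zero_le _) (Finset.mem_univ σ)
    push_cast
    have h2 : (r : ℤ) - w.ord (σ.1 (a * c)) ≤ |(r : ℤ) - w.ord (σ.1 (a * c))| := le_abs_self _
    have h3 : (((r : ℤ) - w.ord (σ.1 (a * c))).natAbs : ℤ) ≤
        ((∑ σ : G, ((r : ℤ) - w.ord (σ.1 (a * c))).natAbs : ℕ) : ℤ) := by exact_mod_cast h1
    rw [Int.natCast_natAbs] at h3
    push_cast at h3
    linarith
  obtain ⟨ε, hε0, hε1, hεN⟩ := exists_eps w (fun σ : {σ : G // ¬ P σ} => tw w σ.1.1)
    (fun σ => σ.2) N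
  set g : K := a * c * ε with hg
  have hg0 : g ≠ 0 := mul_ne_zero (mul_ne_zero ha0 hc0) hε0
  set h : K := ∑ σ : G, σ.1 g with hh
  -- the first part
  have hA : w.Pos (∑ i : {σ : G // P σ}, i.1.1 g / a -
      ∑ i : {σ : G // P σ}, i.1.1 a / a * i.1.1 c) := by
    rw [← Finset.sum_sub_distrib]
    refine sum_pos _ _ fun i _ => ?_
    have e1 : i.1.1 g / a - i.1.1 a / a * i.1.1 (c : K) =
        (i.1.1 a / a * i.1.1 (c : K)) * (i.1.1 (ε - 1)) := by
      rw [hg, map_mul, map_mul, map_sub, map_one]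
      ring
    rw [e1]
    exact w.pos_mul_left (w.reg_mul (hu i) (hreg i _ c.2)) (hpos i _ hε1)
  have hB : w.Pos (∑ i : {σ : G // ¬ P σ}, i.1.1 g / a) := by
    refine sum_pos _ _ fun i _ => ?_
    right
    have h1 := hεN i
    change (N : ℤ) ≤ w.ord (i.1.1 ε) at h1
    have h2 := hN i.1
    rw [w.ord_div (sne _ hg0) ha0, hao, hg, map_mul, w.map_mul _ _
      (sne _ (mul_ne_zero ha0 hc0)) (sne _ hε0)]
    omega
  have hC : ¬ w.Pos (∑ i : {σ : G // P σ}, i.1.1 a / a * i.1.1 (c : K)) := by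
    intro h1
    apply hc
    have h2 : ∑ i, ub i * χ i c = mk (∑ i : {σ : G // P σ},
        (⟨i.1.1 a / a, hu i⟩ * ⟨i.1.1 c, hreg i _ c.2⟩ : w.O)) := by
      rw [map_sum]
      exact Finset.sum_congr rfl fun i _ => (map_mul mk _ _).symm
    rw [h2, hmk]
    have h3 : ((∑ i : {σ : G // P σ},
        (⟨i.1.1 a / a, hu i⟩ * ⟨i.1.1 c, hreg i _ c.2⟩ : w.O) : w.O) : K) =
        ∑ i : {σ : G // P σ}, i.1.1 a / a * i.1.1 (c : K) := by
      rw [AddSubmonoidClass.coe_finsetSum]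
      rfl
    rw [h3]
    exact h1
  have hreg2 : w.Reg (∑ i : {σ : G // P σ}, i.1.1 a / a * i.1.1 (c : K)) :=
    Pool.Agent.Helper81_gap.reg_sum' _ _ fun i _ => w.reg_mul (hu i) (hreg i _ c.2)
  have hsplit : h / a = ∑ i : {σ : G // P σ}, i.1.1 g / a +
      ∑ i : {σ : G // ¬ P σ}, i.1.1 g / a := by
    rw [Fintype.sum_subtype_add_sum_subtype P (fun σ : G => σ.1 g / a), hh, Finset.sum_div]
  have hD : ¬ w.Pos (h / a) := by
    intro h1
    apply hC
    have e1 : ∑ i : {σ : G // P σ}, i.1.1 a / a * i.1.1 (c : K) =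
        (h / a - ∑ i : {σ : G // ¬ P σ}, i.1.1 g / a) -
        (∑ i : {σ : G // P σ}, i.1.1 g / a -
          ∑ i : {σ : G // P σ}, i.1.1 a / a * i.1.1 (c : K)) := by
      rw [hsplit]
      ring
    rw [e1]
    exact pos_sub (pos_sub h1 hB) hA
  have hE : w.Reg (h / a) := by
    have e1 : h / a = (∑ i : {σ : G // P σ}, i.1.1 g / a -
          ∑ i : {σ : G // P σ}, i.1.1 a / a * i.1.1 (c : K)) +
        ∑ i : {σ : G // P σ}, i.1.1 a / a * i.1.1 (c : K) +
        ∑ i : {σ : G // ¬ P σ}, i.1.1 g / a := by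
      rw [hsplit]
      ring
    rw [e1]
    exact w.reg_add (w.reg_add (reg_of_pos hA) hreg2) (reg_of_pos hB)
  have hha : h / a ≠ 0 := fun h0 => hD (Or.inl h0)
  have hh0 : h ≠ 0 := fun h0 => hha (by rw [h0, zero_div])
  refine ⟨h, hh0, fun τ hτ => ?_, ?_⟩
  · rw [hh, map_sum]
    refine Fintype.sum_equiv (Equiv.mulLeft (⟨τ, hτ⟩ : G)) _ _ fun σ => ?_
    rfl
  · have h1 := hE.resolve_left hha
    rw [w.ord_div hh0 ha0, hao] at h1
    have h2 : ¬ 0 < w.ord (h / a) := fun h2 => hD (Or.inr h2)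
    rw [w.ord_div hh0 ha0, hao] at h2
    omega

/-- the ramification index is the order of the inertia group -/
theorem ram {K0 : Type} [Field K0] [Algebra ℂ K0] [Algebra K0 K] [IsScalarTower ℂ K0 K]
    (G : Subgroup (K ≃ₐ[ℂ] K)) [Finite G]
    (hinv : ∀ σ ∈ G, ∀ f : K0, σ (algebraMap K0 K f) = algebraMap K0 K f)
    (hfix : ∀ f : K, (∀ σ ∈ G, σ f = f) → ∃ f0 : K0, algebraMap K0 K f0 = f)
    {w : DVal K} {v : DVal K0} {e : ℕ}
    (h : ∀ f : K0, f ≠ 0 → w.ord (algebraMap K0 K f) = e * v.ord f) :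
    e = Nat.card (G ⊓ Ig w : Subgroup (K ≃ₐ[ℂ] K)) := by
  apply Nat.dvd_antisymm
  · obtain ⟨f, hf, hfG, hfo⟩ := exists_inv_ord G w
    obtain ⟨f0, rfl⟩ := hfix f hfG
    have hf0 : f0 ≠ 0 := fun h0 => hf (by rw [h0, map_zero])
    rw [h f0 hf0] at hfo
    have h1 : (e : ℤ) ∣ (Nat.card (G ⊓ Ig w : Subgroup (K ≃ₐ[ℂ] K)) : ℤ) := ⟨_, hfo.symm⟩
    exact_mod_cast h1
  · obtain ⟨hr, σ, hσ, hI, hσr, hch⟩ := exists_gen G w
    obtain ⟨f0, hf0, hf1⟩ := v.surj
    have hf : algebraMap K0 K f0 ≠ 0 := (_root_.map_ne_zero _).2 hf0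
    have h1 := hch.2 _ hf
    rw [hinv σ hσ, div_self hf, h f0 hf0, hf1, mul_one, zpow_natCast] at h1
    have h2 := h1.uniq UC.one
    exact ((Complex.isPrimitiveRoot_exp _ hr.ne').pow_eq_one_iff_dvd _).1 h2

end Run7.h530.TQ
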