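import Pool.Agent.Run7.h530.TQ.Main
import Pool.Agent.Run7.h530.TQ.Wa
import Pool.Agent.Run7.h530.TQ.Hur
import Pool.Agent.Run7.h530.TQ.QDefs

/-!
# Log discrepancies of the quotient
-/

set_option autoImplicit false
set_option linter.unusedSectionVars false

namespace Run7.h530.TQ

open Pool.Agent.H436R3.Fol Pool.Agent.H436R3.KT Pool.Agent.W497.Mld Pool.Agent.Helper58K9.ET
open Q47.QM Q47.TV

variable {K0 K : Type} [Field K0] [Algebra ℂ K0] [Field K] [Algebra ℂ K] [Algebra K0 K]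
  [IsScalarTower ℂ K0 K] {Z : AffVar K0} {BZ : EffDiv Z} {EZ : ∀ z : Pt Z, LocEq BZ z}
  {X : AffVar K} {B : EffDiv X} {E : ∀ x : Pt X, LocEq B x} {G : Subgroup (K ≃ₐ[ℂ] K)}

theorem finite_ext [Finite G]
    (hfix : ∀ f : K, (∀ σ ∈ G, σ f = f) → ∃ f0 : K0, algebraMap K0 K f0 = f) :
    FiniteDimensional K0 K := by
  have h1 : FiniteDimensional (FixedPoints.subfield G K) K := inferInstance
  obtain ⟨s, hs⟩ := h1.fg_top
  refine ⟨⟨s, ?_⟩⟩
  rw [eq_top_iff]
  rintro x -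
  have hx : x ∈ Submodule.span (FixedPoints.subfield G K) (s : Set K) := by rw [hs]; trivial
  induction hx using Submodule.span_induction with
  | mem x h => exact Submodule.subset_span h
  | zero => exact Submodule.zero_mem _
  | add x y _ _ hx hy => exact Submodule.add_mem _ hx hy
  | smul c x _ hx =>
    obtain ⟨c0, hc0⟩ := hfix c fun σ hσ => c.2 ⟨σ, hσ⟩
    have h2 : c • x = c0 • x := by
      rw [Algebra.smul_def c0, hc0]
      rfl
    rw [h2]
    exact Submodule.smul_mem _ _ hx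

namespace IsQuot

/-- the inclusion of the coordinate rings -/
noncomputable def incl (hq : IsQuot EZ E G) : Z.R →ₐ[ℂ] X.R :=
  ((IsScalarTower.toAlgHom ℂ K0 K).comp Z.R.val).codRestrict X.R fun f => (hq.ring f).1 f.2

theorem over_incl (hq : IsQuot EZ E G) {x : Pt X} {z : Pt Z} (h : LiesOver x z) (f : Z.R) :
    x (hq.incl f) = z f := h f (hq.incl f) rfl

theorem over_of (hq : IsQuot EZ E G) {x : Pt X} {z : Pt Z} (h : ∀ f, x (hq.incl f) = z f) :
    LiesOver x z := by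
  intro f f' hff
  have h1 : f' = hq.incl f := Subtype.ext hff
  rw [h1, h]

/-- the automorphism of the coordinate ring -/
noncomputable def autR (hq : IsQuot EZ E G) {σ : K ≃ₐ[ℂ] K} (hσ : σ ∈ G) : X.R →ₐ[ℂ] X.R :=
  ((σ : K →ₐ[ℂ] K).comp X.R.val).codRestrict X.R fun f => (hq.aut σ hσ f).2 f.2

theorem normalZ (hq : IsQuot EZ E G) : IsNormal Z := by
  intro f hf
  rw [hq.ring]
  refine hq.normal _ ?_
  obtain ⟨p, hp, h0⟩ := hf
  refine ⟨p.map (hq.incl : Z.R →+* X.R), hp.map _, ?_⟩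
  rw [Polynomial.eval₂_map]
  have h1 : (algebraMap X.R K).comp (hq.incl : Z.R →+* X.R) =
      (algebraMap K0 K).comp (algebraMap Z.R K0) := rfl
  rw [h1, ← Polynomial.hom_eval₂, h0, map_zero]

/-- the normal affine varieties -/
def nX (hq : IsQuot EZ E G) : NormalAffine K := ⟨X.R, X.fg, X.frac, hq.normal⟩

def nZ (hq : IsQuot EZ E G) : NormalAffine K0 := ⟨Z.R, Z.fg, Z.frac, hq.normalZ⟩

theorem exists_poly (hq : IsQuot EZ E G) [Fintype G] (F : X.R) :
    ∃ P : Polynomial Z.R, P.Monic ∧ P.natDegree = Fintype.card G ∧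
      P.map (hq.incl : Z.R →+* X.R) =
        ∏ σ : G, (Polynomial.X - Polynomial.C (hq.autR σ.2 F)) := by
  classical
  set Φ : Polynomial X.R := ∏ σ : G, (Polynomial.X - Polynomial.C (hq.autR σ.2 F)) with hΦ
  have hm : Φ.Monic := Polynomial.monic_prod_of_monic _ _ fun σ _ => Polynomial.monic_X_sub_C _
  have hdeg : Φ.natDegree = Fintype.card G := by
    rw [hΦ, Polynomial.natDegree_prod_of_monic _ _ fun σ _ => Polynomial.monic_X_sub_C _]
    simp
  have hinv : ∀ τ : G, Φ.map (hq.autR τ.2 : X.R →+* X.R) = Φ := by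
    intro τ
    rw [hΦ, Polynomial.map_prod]
    refine Fintype.prod_equiv (Equiv.mulLeft τ) _ _ fun σ => ?_
    rw [Polynomial.map_sub, Polynomial.map_X, Polynomial.map_C]
    congr 2
  have hlift : Φ ∈ Polynomial.lifts (hq.incl : Z.R →+* X.R) := by
    rw [Polynomial.lifts_iff_coeff_lifts]
    intro i
    obtain ⟨c0, hc0⟩ := hq.fix (Φ.coeff i : K) fun τ hτ => by
      have h1 := congrArg (fun p => ((Polynomial.coeff p i : X.R) : K)) (hinv ⟨τ, hτ⟩)
      simp only [Polynomial.coeff_map] at h1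
      exact h1
    exact ⟨⟨c0, (hq.ring c0).2 (by rw [hc0]; exact (Φ.coeff i).2)⟩, Subtype.ext hc0⟩
  obtain ⟨P, hP, hPd, hPm⟩ := Polynomial.lifts_and_natDegree_eq_and_monic hlift hm
  exact ⟨P, hPm, hPd.trans hdeg, hP⟩

theorem eval_poly (hq : IsQuot EZ E G) [Fintype G] {F : X.R} {P : Polynomial Z.R}
    (hP : P.map (hq.incl : Z.R →+* X.R) =
        ∏ σ : G, (Polynomial.X - Polynomial.C (hq.autR σ.2 F))) :
    Polynomial.eval₂ (hq.incl : Z.R →+* X.R) F P = 0 := by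
  rw [← Polynomial.eval_map, hP, Polynomial.eval_prod]
  refine Finset.prod_eq_zero (Finset.mem_univ (1 : G)) ?_
  rw [Polynomial.eval_sub, Polynomial.eval_X, Polynomial.eval_C]
  exact sub_self _

/-- regular functions on `X` are regular at the divisors above the divisors over `Z` -/
theorem reg_above (hq : IsQuot EZ E G) [Finite G] {w : DVal K} {v : DVal K0} {e : ℕ} (he : 0 < e)
    (h : ∀ f : K0, f ≠ 0 → w.ord (algebraMap K0 K f) = e * v.ord f)
    (hv : ∀ f ∈ Z.R, v.Reg f) (F : X.R) : w.Reg (F : K) := by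
  have := Fintype.ofFinite G
  obtain ⟨P, hPm, -, hP⟩ := hq.exists_poly F
  have h0 := hq.eval_poly hP
  refine Pool.Agent.Helper81_gap.reg_of_int w
    (S := Z.R.map (IsScalarTower.toAlgHom ℂ K0 K)) ?_ ?_
  · rintro _ ⟨f, hf, rfl⟩
    exact (Pool.Agent.Helper81_gap.above_reg he h f).2 (hv f hf)
  · let j : Z.R →+* Z.R.map (IsScalarTower.toAlgHom ℂ K0 K) :=
      { toFun := fun f => ⟨algebraMap K0 K f, ⟨f, f.2, rfl⟩⟩
        map_one' := Subtype.ext (map_one _)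
        map_mul' := fun _ _ => Subtype.ext (map_mul _ _ _)
        map_zero' := Subtype.ext (map_zero _)
        map_add' := fun _ _ => Subtype.ext (map_add _ _ _) }
    refine ⟨P.map j, hPm.map _, ?_⟩
    rw [Polynomial.eval₂_map]
    have h1 : (algebraMap (Z.R.map (IsScalarTower.toAlgHom ℂ K0 K)) K).comp j =
        (X.R.val : X.R →+* K).comp (hq.incl : Z.R →+* X.R) := rfl
    rw [h1]
    have h2 := Polynomial.hom_eval₂ P (hq.incl : Z.R →+* X.R) (X.R.val : X.R →+* K) F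
    rw [h0, map_zero] at h2
    exact h2.symm

/-- the centre of a divisor above is a closed point -/
theorem exists_centre (hq : IsQuot EZ E G) [Finite G] {z : Pt Z} {w : DVal K} {v : DVal K0} {e : ℕ}
    (he : 0 < e) (h : ∀ f : K0, f ≠ 0 → w.ord (algebraMap K0 K f) = e * v.ord f)
    (hv : IsOverGerm z v) : ∃ x : Pt X, LiesOver x z ∧ ∀ f : X.R, w.Pos (f : K) ↔ x f = 0 := by
  have hreg := hq.reg_above he h (by
    obtain ⟨⟨S, -, hZS, hl⟩, -⟩ := hv
    exact fun f hf => hl.1 f (hZS hf))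
  let p : Ideal X.R :=
    { carrier := {f | w.Pos (f : K)}
      add_mem' := fun {_ _} ha hb => w.pos_add ha hb
      zero_mem' := Or.inl rfl
      smul_mem' := fun c _ hx => w.pos_mul_left (hreg c) hx }
  have hp : p.IsPrime := by
    refine Ideal.isPrime_iff.2 ⟨?_, ?_⟩
    · intro h
      have h1 : (1 : X.R) ∈ p := by rw [h]; trivial
      exact not_pos one_ne_zero w.ord_one h1
    · intro x y hxy
      exact pos_of_mul (hreg x) (hreg y) hxy
  let A := X.R ⧸ p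
  let mk : X.R →ₐ[ℂ] A := Ideal.Quotient.mkₐ ℂ p
  have hmk : ∀ f, mk f = 0 ↔ w.Pos (f : K) := fun f => by
    change Ideal.Quotient.mk p f = 0 ↔ _
    exact Ideal.Quotient.eq_zero_iff_mem
  have hval : ∀ f : Z.R, mk (hq.incl f) = algebraMap ℂ A (z f) := by
    intro f
    have h1 : v.Pos ((f - algebraMap ℂ Z.R (z f) : Z.R) : K0) := by
      rw [hv.2, map_sub, AlgHom.commutes]
      exact sub_self _
    have h2 := (Pool.Agent.Helper81_gap.above_pos he h _).2 h1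
    have h3 : mk (hq.incl (f - algebraMap ℂ Z.R (z f))) = 0 := by
      rw [hmk]
      exact h2
    rw [map_sub, map_sub, sub_eq_zero, AlgHom.commutes, AlgHom.commutes] at h3
    exact h3
  have hint : Algebra.IsIntegral ℂ A := by
    refine ⟨fun a => ?_⟩
    obtain ⟨F, rfl⟩ := Ideal.Quotient.mk_surjective a
    have := Fintype.ofFinite G
    obtain ⟨P, hPm, -, hP⟩ := hq.exists_poly F
    have h0 := hq.eval_poly hP
    refine ⟨P.map (z : Z.R →+* ℂ), hPm.map _, ?_⟩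
    rw [Polynomial.eval₂_map]
    have h1 : (algebraMap ℂ A).comp (z : Z.R →+* ℂ) =
        (mk : X.R →+* A).comp (hq.incl : Z.R →+* X.R) := by
      ext f
      exact (hval f).symm
    rw [h1]
    have h2 := Polynomial.hom_eval₂ P (hq.incl : Z.R →+* X.R) (mk : X.R →+* A) F
    rw [h0, map_zero] at h2
    exact h2.symm
  have hbij := IsAlgClosed.algebraMap_bijective_of_isIntegral (k := ℂ) (K := A)
  let eqv : ℂ ≃ₐ[ℂ] A := AlgEquiv.ofBijective (Algebra.ofId ℂ A) hbij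
  refine ⟨(eqv.symm : A →ₐ[ℂ] ℂ).comp mk, hq.over_of fun f => ?_, fun f => ?_⟩
  · change eqv.symm (mk (hq.incl f)) = z f
    rw [hval, AlgEquiv.symm_apply_eq]
    rfl
  · rw [← hmk]
    change _ ↔ eqv.symm (mk f) = 0
    exact (map_eq_zero_iff eqv.symm eqv.symm.injective).symm

theorem rank (_ : IsQuot EZ E G) (v : DVal K0) :
    ∃ m, Z.d = m + 1 ∧ Algebra.trdeg ℂ K0 = ((m + 1 : ℕ) : Cardinal) :=
  trdeg_succ Z.T Z.top v

/-- the divisors above -/
theorem up (hq : IsQuot EZ E G) [Finite G] {z : Pt Z} {v : DVal K0} (hv : IsOverGerm z v) :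
    ∃ (x : Pt X) (w : DVal K) (e : ℕ), LiesOver x z ∧ IsOverGerm x w ∧ 0 < e ∧
      ∀ f : K0, f ≠ 0 → w.ord (algebraMap K0 K f) = e * v.ord f := by
  have hfin := finite_ext (K0 := K0) hq.fix
  have halg : Algebra.IsAlgebraic K0 K := Algebra.IsAlgebraic.of_finite K0 K
  obtain ⟨w, e, he, h⟩ := Pool.Agent.TH969.C8_EXT.exists_ext (Ω := K) v
  obtain ⟨x, hx, hc⟩ := hq.exists_centre he h hv
  obtain ⟨m, -, htr⟩ := hq.rank v
  have hdiv : IsDivisorOver hq.nX w :=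
    Pool.Agent.Helper81_gap.divisor_above (X := hq.nZ) htr he h (fun f hf =>
      hq.reg_above he h (by
        obtain ⟨⟨S, -, hZS, hl⟩, -⟩ := hv
        exact fun f hf => hl.1 f (hZS hf)) ⟨f, hf⟩) hv.1
  exact ⟨x, w, e, hx, ⟨hdiv, hc⟩, he, h⟩

/-- the divisors below -/
theorem down (hq : IsQuot EZ E G) [Finite G] {z : Pt Z} {x : Pt X} (hxz : LiesOver x z)
    {w : DVal K} (hw : IsOverGerm x w) :
    ∃ (v : DVal K0) (e : ℕ), IsOverGerm z v ∧ 0 < e ∧
      ∀ f : K0, f ≠ 0 → w.ord (algebraMap K0 K f) = e * v.ord f := by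
  have hfin := finite_ext (K0 := K0) hq.fix
  have halg : Algebra.IsAlgebraic K0 K := Algebra.IsAlgebraic.of_finite K0 K
  obtain ⟨v, e, he, h⟩ := Pool.Agent.TH969.C8_EXT.exists_restrict (F := K0) w
  obtain ⟨m, -, htr⟩ := hq.rank v
  have hregw : ∀ f : X.R, w.Reg (f : K) := by
    obtain ⟨⟨S, -, hZS, hl⟩, -⟩ := hw
    exact fun f => hl.1 f (hZS f.2)
  have hdiv : IsDivisorOver hq.nZ v :=
    Pool.Agent.Helper81_gap.divisor_below (Z := hq.nX) htr he h (fun f hf =>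
      (Pool.Agent.Helper81_gap.above_reg he h f).1 (hregw (hq.incl ⟨f, hf⟩))) hw.1
  refine ⟨v, e, ⟨hdiv, fun f => ?_⟩, he, h⟩
  rw [← Pool.Agent.Helper81_gap.above_pos he h, ← hq.over_incl hxz f, ← hw.2]
  rfl

/-- the log discrepancies -/
theorem disc (hq : IsQuot EZ E G) [Finite G] {z : Pt Z} {x : Pt X} (hxz : LiesOver x z)
    {w : DVal K} (hw : IsOverGerm x w) {v : DVal K0} (hv : IsOverGerm z v) {e : ℕ} (he : 0 < e)
    (h : ∀ f : K0, f ≠ 0 → w.ord (algebraMap K0 K f) = e * v.ord f) (a : ℝ) :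
    IsLogDisc (EZ z) v a ↔ IsLogDisc (E x) w (e * a) := by
  have hfin := finite_ext (K0 := K0) hq.fix
  have halg : Algebra.IsAlgebraic K0 K := Algebra.IsAlgebraic.of_finite K0 K
  obtain ⟨T, hT, hpull⟩ := hq.pull
  have hdw : IsDivisorOver hq.nX w := hw.1
  have hdv : IsDivisorOver hq.nZ v := hv.1
  -- existence of the orders
  have ex : ∀ {F : Type} [Field F] [Algebra ℂ F] {d : ℕ} (S : Foliation F d) (_ : S.space = ⊤)
      (Y : NormalAffine F) (u : DVal F), IsDivisorOver Y u → ∃ b, IsCanOrd S u b := by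
    intro F _ _ d S hS Y u hu
    obtain ⟨m, rfl, htr⟩ := trdeg_succ S hS u
    exact (exists_can htr hu S).1
  obtain ⟨k, hk⟩ := ex X.T X.top hq.nX w hdw
  obtain ⟨k', hk'⟩ := ex T hT.top hq.nX w hdw
  obtain ⟨k0, hk0⟩ := ex Z.T Z.top hq.nZ v hdv
  have hur : ∀ {d : ℕ} (S : Foliation K0 d) (S' : Foliation K d), S.space = ⊤ →
      (∀ i, ∀ f : K0, S'.D i (algebraMap K0 K f) = algebraMap K0 K (S.D i f)) →
      IsCanOrd S v k0 → IsCanOrd S' w k' → k' + 1 = e * (k0 + 1) := by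
    intro d S S' hS hSS h1 h2
    obtain ⟨m, rfl, htr⟩ := trdeg_succ S hS v
    exact hurwitz htr hSS he h hdv hdw h1 h2
  have h1 := hur Z.T T Z.top hT.ext hk0 hk'
  have h2 := hpull x z hxz w hw k k' hk hk'
  have h3 : ordE (EZ z) w = e * ∑ i, (EZ z).ρ i * (v.ord ((EZ z).g i) : ℝ) := by
    rw [ordE, Finset.mul_sum]
    refine Finset.sum_congr rfl fun i _ => ?_
    rw [h _ ((EZ z).ne i)]
    push_cast
    ring
  have h4 : (k' : ℝ) + 1 = e * (k0 + 1) := by exact_mod_cast h1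
  have he' : (e : ℝ) ≠ 0 := by exact_mod_cast he.ne'
  have key : (1 : ℝ) + k - ∑ i, (E x).ρ i * (w.ord ((E x).g i) : ℝ) =
      e * (1 + k0 - ∑ i, (EZ z).ρ i * (v.ord ((EZ z).g i) : ℝ)) := by
    rw [h3] at h2
    linear_combination h2 + h4
  constructor
  · rintro ⟨n, hn, rfl⟩
    have h5 := Pool.Agent.Helper81_gap.can_unique hn hk0
    subst h5
    exact ⟨k, hk, key.symm⟩
  · rintro ⟨n, hn, ha⟩
    have h5 := Pool.Agent.Helper81_gap.can_unique hn hk
    subst h5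
    rw [key] at ha
    exact ⟨k0, hk0, mul_left_cancel₀ he' ha⟩

theorem ram (hq : IsQuot EZ E G) [Finite G] {w : DVal K} {v : DVal K0} {e : ℕ}
    (h : ∀ f : K0, f ≠ 0 → w.ord (algebraMap K0 K f) = e * v.ord f) :
    e = Nat.card (G ⊓ Ig w : Subgroup (K ≃ₐ[ℂ] K)) :=
  Run7.h530.TQ.ram G hq.inv hq.fix h

theorem over_tw' {X : AffVar K} {x x' : Pt X} {σ : K ≃ₐ[ℂ] K} (hX : ∀ f, σ f ∈ X.R ↔ f ∈ X.R)
    (hxx : ∀ f f' : X.R, (f' : K) = σ f → x' f = x f') {w : DVal K} (h : IsOverGerm x w) :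
    IsOverGerm x' (tw w σ) := by
  obtain ⟨⟨S, hS, hUS, hSw⟩, hP⟩ := h
  refine ⟨⟨S.map (σ.symm : K →ₐ[ℂ] K), hS.map _, ?_, ?_, ?_⟩, ?_⟩
  · intro f hf
    exact ⟨σ f, hUS ((hX f).2 hf), σ.symm_apply_apply f⟩
  · rintro _ ⟨f, hf, rfl⟩
    rw [tw_reg]
    change w.Reg (σ ((σ.symm : K →ₐ[ℂ] K) f))
    have h1 : σ ((σ.symm : K →ₐ[ℂ] K) f) = f := σ.apply_symm_apply f
    rw [h1]
    exact hSw.1 f hf
  · intro f hf
    rw [tw_reg] at hf
    obtain ⟨a, b, ha, hb, hb0, hob, hab⟩ := hSw.2 _ hf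
    refine ⟨σ.symm a, σ.symm b, ⟨a, ha, rfl⟩, ⟨b, hb, rfl⟩, ?_, ?_, ?_⟩
    · intro h1
      apply hb0
      have h2 := congrArg σ h1
      rwa [σ.apply_symm_apply, map_zero] at h2
    · change w.ord (σ (σ.symm b)) = 0
      rw [σ.apply_symm_apply, hob]
    · apply σ.injective
      rw [map_mul, σ.apply_symm_apply, σ.apply_symm_apply, hab]
  · intro f
    rw [tw_pos, hP ⟨σ f, (hX _).2 f.2⟩, ← hxx f ⟨σ f, (hX _).2 f.2⟩ rfl]

/-- the image of a point of `X` -/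
theorem exists_im (hq : IsQuot EZ E G) (x : Pt X) : ∃ z : Pt Z, LiesOver x z :=
  ⟨x.comp hq.incl, hq.over_of fun _ => rfl⟩

theorem over_aut (hq : IsQuot EZ E G) {x x' : Pt X} {σ : K ≃ₐ[ℂ] K} (hσ : σ ∈ G)
    (hxx : ∀ f f' : X.R, (f' : K) = σ f → x' f = x f') {z : Pt Z} (h : LiesOver x z) :
    LiesOver x' z := by
  refine hq.over_of fun f => ?_
  rw [hxx (hq.incl f) (hq.incl f) (hq.inv σ hσ f).symm, hq.over_incl h]

/-- the elements of the group preserve the log discrepancies -/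
theorem isAutX (hq : IsQuot EZ E G) [Finite G] {σ : K ≃ₐ[ℂ] K} (hσ : σ ∈ G) : IsAutX E σ := by
  have main : ∀ {σ : K ≃ₐ[ℂ] K}, σ ∈ G → ∀ x x' : Pt X,
      (∀ f f' : X.R, (f' : K) = σ f → x' f = x f') → ∀ (w : DVal K) (b : ℝ),
      IsOverGerm x w ∧ IsLogDisc (E x) w b →
      IsOverGerm x' (tw w σ) ∧ IsLogDisc (E x') (tw w σ) b := by
    rintro σ hσ x x' hxx w b ⟨hw, hb⟩
    have hw' := over_tw' (hq.aut σ hσ) hxx hw
    obtain ⟨z, hz⟩ := hq.exists_im x
    have hz' := hq.over_aut hσ hxx hz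
    obtain ⟨v, e, hv, he, h⟩ := hq.down hz hw
    have h' : ∀ f : K0, f ≠ 0 → (tw w σ).ord (algebraMap K0 K f) = e * v.ord f := by
      intro f hf
      change w.ord (σ (algebraMap K0 K f)) = _
      rw [hq.inv σ hσ, h f hf]
    have he' : (e : ℝ) ≠ 0 := by exact_mod_cast he.ne'
    have e1 : b = e * (b / e) := by field_simp
    rw [e1] at hb ⊢
    exact ⟨hw', (hq.disc hz' hw' hv he h' _).1 ((hq.disc hz hw hv he h _).2 hb)⟩
  refine ⟨hq.aut σ hσ, fun x x' hxx w b => ⟨main hσ x x' hxx w b, fun h => ?_⟩⟩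
  have h1 := main (G.inv_mem hσ) x' x (fun f f' hff => (hxx f' f (by
    rw [hff, ← AlgEquiv.mul_apply, mul_inv_cancel, AlgEquiv.one_apply])).symm) (tw w σ) b h
  rw [tw_tw, mul_inv_cancel, tw_one] at h1
  exact h1

/-- neighbourhoods -/
theorem descent (hq : IsQuot EZ E G) [Finite G] {x : Pt X} {z : Pt Z} (hxz : LiesOver x z)
    {F : X.R} (hF : x F ≠ 0) : ∃ q : Z.R, z q ≠ 0 ∧ ∀ (z' : Pt Z) (x' : Pt X), LiesOver x' z' →
      z' q ≠ 0 → ∃ (σ : K ≃ₐ[ℂ] K) (hσ : σ ∈ G), x' (hq.autR hσ F) ≠ 0 := by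
  classical
  have := Fintype.ofFinite G
  obtain ⟨P, hPm, hPd, hP⟩ := hq.exists_poly F
  have hmap : ∀ (z' : Pt Z) (x' : Pt X), LiesOver x' z' → P.map (z' : Z.R →+* ℂ) =
      ∏ σ : G, (Polynomial.X - Polynomial.C (x' (hq.autR σ.2 F))) := by
    intro z' x' h
    have h1 : (z' : Z.R →+* ℂ) = (x' : X.R →+* ℂ).comp (hq.incl : Z.R →+* X.R) := by
      ext f
      exact (hq.over_incl h f).symm
    rw [h1, ← Polynomial.map_map, hP, Polynomial.map_prod]
    refine Finset.prod_congr rfl fun σ _ => ?_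
    rw [Polynomial.map_sub, Polynomial.map_X, Polynomial.map_C]
    rfl
  obtain ⟨i, hi, hiz⟩ : ∃ i, i ≠ P.natDegree ∧ z (P.coeff i) ≠ 0 := by
    by_contra hcon
    push Not at hcon
    have h1 : P.map (z : Z.R →+* ℂ) = Polynomial.X ^ P.natDegree := by
      ext i
      rw [Polynomial.coeff_map, Polynomial.coeff_X_pow]
      split_ifs with h2
      · rw [h2, hPm.coeff_natDegree, map_one]
      · exact hcon i h2
    have h2 := congrArg (Polynomial.eval (x F)) h1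
    rw [hmap z x hxz, Polynomial.eval_prod, Polynomial.eval_pow, Polynomial.eval_X] at h2
    rw [Finset.prod_eq_zero (Finset.mem_univ (1 : G)) (by
      rw [Polynomial.eval_sub, Polynomial.eval_X, Polynomial.eval_C]
      exact sub_self _)] at h2
    exact pow_ne_zero _ hF h2.symm
  refine ⟨P.coeff i, hiz, fun z' x' hx' hz' => ?_⟩
  by_contra hcon
  push Not at hcon
  apply hz'
  have h1 := hmap z' x' hx'
  rw [Finset.prod_congr rfl fun σ _ => by rw [hcon σ.1 σ.2, Polynomial.C_0, sub_zero],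
    Finset.prod_const, Finset.card_univ, ← hPd] at h1
  have h2 := congrArg (fun p => Polynomial.coeff p i) h1
  simp only [Polynomial.coeff_map, Polynomial.coeff_X_pow] at h2
  rw [if_neg hi] at h2
  exact h2

/-- the point `f ↦ x (σ f)` -/
noncomputable def mv (hq : IsQuot EZ E G) {σ : K ≃ₐ[ℂ] K} (hσ : σ ∈ G) (x : Pt X) : Pt X :=
  x.comp (hq.autR hσ)

theorem mv_spec (hq : IsQuot EZ E G) {σ : K ≃ₐ[ℂ] K} (hσ : σ ∈ G) (x : Pt X) (f f' : X.R)
    (h : (f' : K) = σ f) : hq.mv hσ x f = x f' := by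
  have h1 : f' = hq.autR hσ f := Subtype.ext h
  rw [h1]
  rfl

end IsQuot

variable {n : ℕ} {M : Type} [Field M] [Algebra ℂ M]
  [Algebra (MvPolynomial (Fin n) ℂ) M] [IsFractionRing (MvPolynomial (Fin n) ℂ) M]
  [IsScalarTower ℂ (MvPolynomial (Fin n) ℂ) M]

open Pool.Agent.Helper58K9.AR

/-- lower semicontinuity for the quotient -/
theorem quot_lsc [Finite G] (hq : IsQuot EZ E G) (z : Pt Z) (x : Pt X) (hxz : LiesOver x z)
    (hx : ∀ σ ∈ G, FixesPt x σ → Nonempty (EChart n M E x σ)) :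
    ∃ q : Z.R, z q ≠ 0 ∧ ∀ z' : Pt Z, z' q ≠ 0 → mld (EZ z) ≤ mld (EZ z') := by
  classical
  obtain ⟨F, hF, hFP⟩ := lsc_et G (fun σ hσ => hq.isAutX hσ) x hx
  obtain ⟨q, hq0, hqP⟩ := hq.descent hxz hF
  refine ⟨q, hq0, fun z' hz' => ?_⟩
  have key : ∀ m : ℝ, 0 ≤ m → (∀ v a, IsOverGerm z v → IsLogDisc (EZ z) v a → m ≤ a) →
      ∀ v a, IsOverGerm z' v → IsLogDisc (EZ z') v a → m ≤ a := by
    intro m hm0 hm v a hv ha
    obtain ⟨x1, w1, e, hx1, hw1, he, h1⟩ := hq.up hv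
    obtain ⟨σ, hσ, hσF⟩ := hqP z' x1 hx1 hz'
    have hxx := hq.mv_spec hσ x1
    have hx2 : LiesOver (hq.mv hσ x1) z' := hq.over_aut hσ hxx hx1
    have hw2 : IsOverGerm (hq.mv hσ x1) (tw w1 σ) := IsQuot.over_tw' (hq.aut σ hσ) hxx hw1
    have h2 : ∀ f : K0, f ≠ 0 → (tw w1 σ).ord (algebraMap K0 K f) = e * v.ord f := by
      intro f hf
      change w1.ord (σ (algebraMap K0 K f)) = _
      rw [hq.inv σ hσ, h1 f hf]
    have hb := (hq.disc hx2 hw2 hv he h2 a).1 ha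
    have h3 := hFP (hq.mv hσ x1) hσF m hm0 (fun w b hw hb => by
      obtain ⟨v0, e0, hv0, he0, h0⟩ := hq.down hxz hw
      have he0' : (e0 : ℝ) ≠ 0 := by exact_mod_cast he0.ne'
      rw [← hq.ram h0]
      have e1 : b = e0 * (b / e0) := by field_simp
      rw [e1] at hb
      exact hm v0 _ hv0 ((hq.disc hxz hw hv0 he0 h0 _).2 hb)) (tw w1 σ) _ hw2 hb
    have he' : (e : ℝ) ≠ 0 := by exact_mod_cast he.ne'
    rw [← hq.ram h2, mul_div_cancel_left₀ _ he'] at h3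
    exact h3
  rw [mld]
  split_ifs with h1
  · exact bot_le
  push Not at h1
  have h2 : ¬ ∃ v a, IsOverGerm z' v ∧ IsLogDisc (EZ z') v a ∧ a < 0 := by
    rintro ⟨v, a, hv, ha, h0⟩
    have := key 0 le_rfl (fun v a hv ha => h1 v a hv ha) v a hv ha
    linarith
  rw [mld, if_neg h2]
  refine le_sInf ?_
  rintro _ ⟨v, r, hv, hr, rfl⟩
  rw [← EReal.ge_of_forall_gt_iff_ge]
  intro m hm
  have hval : ∀ v a, IsOverGerm z v → IsLogDisc (EZ z) v a →
      sInf {a : EReal | ∃ v r, IsOverGerm z v ∧ IsLogDisc (EZ z) v r ∧ a = (r : EReal)} ≤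
        ((a : ℝ) : EReal) := fun v a hv ha => sInf_le ⟨v, a, hv, ha, rfl⟩
  rcases le_total 0 m with h0 | h0
  · have h3 := key m h0 (fun v a hv ha => by
      have h4 := hm.le.trans (hval v a hv ha)
      exact_mod_cast h4) v r hv hr
    exact_mod_cast h3
  · have h3 := key 0 le_rfl (fun v a hv ha => h1 v a hv ha) v r hv hr
    have h4 : m ≤ r := h0.trans h3
    exact_mod_cast h4

end Run7.h530.TQ
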